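import Pool.Agent.H603Z.CK.Rep

set_option autoImplicit false

open Complex Filter Topology Set Metric
open scoped Real

namespace Pool.Agent.H603Z.CK

structure Good (G : ℂ → ℂ) : Prop where
  deriv : ∀ z, HasDerivAt G (exp (exp z)) z
  per : Function.Periodic (fun z => G z - z) (2 * π * I)
  val : G (π * I) = 30
  left : ∃ M : ℝ, ∀ z : ℂ, z.re ≤ 0 → ‖z‖ - M ≤ ‖G z‖

lemma exists_good : ∃ G, Good G := by
  have h1 : Differentiable ℂ (dslope exp 0) := by
    intro z
    by_cases hz : z = 0
    · subst hz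
      exact (analyticAt_dslope _ _ (differentiable_exp.analyticAt 0)).differentiableAt
    · exact (differentiableAt_dslope_of_ne hz).mpr (differentiable_exp z)
  obtain ⟨E, hE⟩ := h1.isExactOn_univ
  have hE' : ∀ z, HasDerivAt E (dslope exp 0 z) z := fun z => hE z (mem_univ z)
  set c : ℂ := 30 - π * I - E (exp (π * I)) with hc
  refine ⟨fun z => z + E (exp z) + c, ?_, ?_, ?_, ?_⟩
  · intro z
    have h2 := ((hasDerivAt_id z).add ((hE' (exp z)).comp z (Complex.hasDerivAt_exp z))).add_const c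
    have e : exp (exp z) = 1 + dslope exp 0 (exp z) * exp z := by
      rw [dslope_of_ne _ (exp_ne_zero z), slope_def_field, exp_zero, sub_zero]
      field_simp
      ring
    rw [e]
    exact h2
  · intro z
    simp only [Complex.exp_periodic z]
    ring
  · simp only [hc]; ring
  · have hcont : Continuous E := continuous_iff_continuousAt.mpr fun z => (hE' z).continuousAt
    obtain ⟨M, hM⟩ := (isCompact_closedBall (0:ℂ) 1).exists_bound_of_continuousOn
      hcont.continuousOn
    refine ⟨M + ‖c‖, fun z hz => ?_⟩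
    have h2 : ‖E (exp z)‖ ≤ M := by
      apply hM
      rw [mem_closedBall_zero_iff, Complex.norm_exp]
      exact Real.exp_le_one_iff.mpr hz
    have h3 : z = (z + E (exp z) + c) - E (exp z) - c := by ring
    have h4 : ‖z‖ ≤ ‖z + E (exp z) + c‖ + ‖E (exp z)‖ + ‖c‖ := by
      calc ‖z‖ = ‖(z + E (exp z) + c) - E (exp z) - c‖ := by rw [← h3]
        _ ≤ ‖(z + E (exp z) + c) - E (exp z)‖ + ‖c‖ := norm_sub_le _ _
        _ ≤ _ := by gcongr; exact norm_sub_le _ _
    linarith

variable {G : ℂ → ℂ}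

lemma Good.differentiable (h : Good G) : Differentiable ℂ G :=
  fun z => (h.deriv z).differentiableAt

lemma Good.deriv_eq (h : Good G) (z : ℂ) : _root_.deriv G z = exp (exp z) := (h.deriv z).deriv

lemma re_exp_aux (x s : ℝ) : (exp (x + (π + s : ℝ) * I)).re = -(Real.exp x * Real.cos s) := by
  rw [Complex.exp_re]
  simp [Real.cos_add]

lemma im_exp_aux (x s : ℝ) : (exp (x + (π + s : ℝ) * I)).im = -(Real.exp x * Real.sin s) := by
  rw [Complex.exp_im]
  simp [Real.sin_add]

lemma Good.central (h : Good G) (x : ℝ) (hx : 0 ≤ x) : ‖G (x + π * I) - 30‖ ≤ 1 := by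
  have hd : ∀ s : ℝ, HasDerivAt (fun s : ℝ => G (s + π * I) - 30) (exp (exp (s + π * I))) s := by
    intro s
    have h1 : HasDerivAt (fun w : ℂ => G (w + π * I) - 30) (exp (exp (s + π * I))) s := by
      simpa using ((h.deriv (s + π * I)).comp (s : ℂ)
        ((hasDerivAt_id (s : ℂ)).add_const (π * I))).sub_const 30
    exact h1.comp_ofReal
  have hB : ∀ s : ℝ, HasDerivAt (fun s : ℝ => 1 - Real.exp (-s)) (Real.exp (-s)) s := by
    intro s
    simpa using ((hasDerivAt_neg s).exp).const_sub 1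
  have := image_norm_le_of_norm_deriv_right_le_deriv_boundary (a := 0) (b := x)
    (f := fun s : ℝ => G (s + π * I) - 30) (f' := fun s : ℝ => exp (exp (s + π * I)))
    (fun s _ => (hd s).continuousAt.continuousWithinAt)
    (fun s _ => (hd s).hasDerivWithinAt) (B := fun s : ℝ => 1 - Real.exp (-s))
    (by simp [h.val]) hB ?_ (x := x) ⟨hx, le_rfl⟩
  · have := Real.exp_pos (-x)
    linarith
  · intro s _
    rw [Complex.norm_exp]
    apply Real.exp_le_exp.mpr
    have h1 := re_exp_aux s 0
    simp only [add_zero, Real.cos_zero, mul_one] at h1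
    rw [h1]
    linarith [Real.add_one_le_exp s]

lemma Good.fence (h : Good G) (x η P κ : ℝ) (hκ : 0 ≤ κ)
    (hb : ∀ s ∈ Icc 0 |η|, Real.exp (-(Real.exp x * Real.cos s)) ≤
      P + κ * (Real.exp x * Real.sin s) * Real.exp (-(Real.exp x * Real.cos s))) :
    ‖G (x + (π + η : ℝ) * I) - G (x + π * I)‖ ≤
      P * |η| + κ * Real.exp (-(Real.exp x * Real.cos η)) := by
  have hd : ∀ τ : ℝ, HasDerivAt (fun τ : ℝ => G (x + (π + τ * η : ℝ) * I) - G (x + π * I))
      (exp (exp (x + (π + τ * η : ℝ) * I)) * (η * I)) τ := by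
    intro τ
    have h0 : HasDerivAt (fun w : ℂ => (x : ℂ) + (π + w * η) * I) (η * I) τ := by
      simpa using ((((hasDerivAt_id (τ : ℂ)).mul_const (η : ℂ)).const_add (π : ℂ)).mul_const
        I).const_add (x : ℂ)
    have h1 := (((h.deriv (x + (π + τ * η) * I)).comp (τ : ℂ) h0).sub_const
      (G (x + π * I))).comp_ofReal
    simpa using h1
  have hB : ∀ τ : ℝ, HasDerivAt
      (fun τ : ℝ => P * (τ * |η|) + κ * Real.exp (-(Real.exp x * Real.cos (τ * |η|))))
      (P * |η| + κ * (Real.exp (-(Real.exp x * Real.cos (τ * |η|))) *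
        (Real.exp x * Real.sin (τ * |η|) * |η|))) τ := by
    intro τ
    have h0 : HasDerivAt (fun τ : ℝ => τ * |η|) |η| τ := by
      simpa using (hasDerivAt_id τ).mul_const |η|
    have h1 := ((h0.cos.const_mul (Real.exp x)).neg.exp.const_mul κ)
    have h2 := (h0.const_mul P).add h1
    have e : P * |η| + κ * (Real.exp (-(Real.exp x * Real.cos (τ * |η|))) *
        (Real.exp x * Real.sin (τ * |η|) * |η|)) = P * |η| +
        κ * (Real.exp (-(Real.exp x * Real.cos (τ * |η|))) *
          -(Real.exp x * (-Real.sin (τ * |η|) * |η|))) := by ring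
    rw [e]
    exact h2
  have := image_norm_le_of_norm_deriv_right_le_deriv_boundary (a := 0) (b := 1)
    (fun s _ => (hd s).continuousAt.continuousWithinAt)
    (fun s _ => (hd s).hasDerivWithinAt) (by simp; positivity) hB ?_ (x := 1) ⟨zero_le_one, le_rfl⟩
  · simpa [Real.cos_abs] using this
  · intro τ hτ
    rw [norm_mul, Complex.norm_exp, re_exp_aux]
    have e1 : ‖(η : ℂ) * I‖ = |η| := by simp
    have e2 : Real.cos (τ * η) = Real.cos (τ * |η|) := by
      rw [← Real.cos_abs (τ * η), abs_mul, abs_of_nonneg hτ.1]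
    rw [e1, e2]
    have h3 := hb (τ * |η|) ⟨mul_nonneg hτ.1 (abs_nonneg _),
      mul_le_of_le_one_left (abs_nonneg _) hτ.2.le⟩
    have := mul_le_mul_of_nonneg_right h3 (abs_nonneg η)
    linarith

lemma Good.ne_zero (h : Good G) : G 0 ≠ 0 := by
  intro h0
  have hpi := Real.pi_pos
  have := h.fence 0 (-π) 3 0 le_rfl (by
    intro s _
    simp only [Real.exp_zero, one_mul, zero_mul, add_zero]
    calc Real.exp (-Real.cos s) ≤ Real.exp 1 :=
          Real.exp_le_exp.mpr (by linarith [Real.neg_one_le_cos s])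
      _ ≤ 3 := by linarith [Real.exp_one_lt_d9])
  simp [h0, h.val, abs_of_pos hpi] at this
  linarith [Real.pi_lt_four]

lemma Good.reduce (h : Good G) (z : ℂ) : ∃ η : ℝ, |η| ≤ π ∧
    exp z = exp (z.re + (π + η : ℝ) * I) ∧
    G z - 30 - z.im * I = G (z.re + (π + η : ℝ) * I) - 30 - (π + η : ℝ) * I := by
  have hpi := Real.pi_pos
  set m : ℤ := ⌊z.im / (2 * π)⌋ with hm
  have h1 : (m : ℝ) * (2 * π) ≤ z.im := by
    rw [← le_div_iff₀ (by positivity)]; exact Int.floor_le _
  have h2 : z.im < (m + 1 : ℝ) * (2 * π) := by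
    rw [← div_lt_iff₀ (by positivity)]; exact Int.lt_floor_add_one _
  have hz : z = (z.re + (π + (z.im - m * (2 * π) - π) : ℝ) * I) + m * (2 * π * I) := by
    conv_lhs => rw [← Complex.re_add_im z]
    push_cast
    ring
  refine ⟨z.im - m * (2 * π) - π, abs_le.mpr ⟨by linarith, by linarith⟩, ?_, ?_⟩
  · conv_lhs => rw [hz]
    exact Complex.exp_periodic.int_mul m _
  · have h3 := h.per.int_mul m (z.re + (π + (z.im - m * (2 * π) - π) : ℝ) * I)
    rw [← hz] at h3
    have h4 : z = z.re + z.im * I := (Complex.re_add_im z).symm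
    linear_combination h3 + h4

lemma Good.est (h : Good G) (z : ℂ) (hz : 0 ≤ z.re) (η κ : ℝ) (hη : |η| ≤ π) (hκ : 0 ≤ κ)
    (h2 : G z - 30 - z.im * I = G (z.re + (π + η : ℝ) * I) - 30 - (π + η : ℝ) * I)
    (hb : ∀ s ∈ Icc 0 |η|, Real.exp (-(Real.exp z.re * Real.cos s)) ≤
      1 + κ * (Real.exp z.re * Real.sin s) * Real.exp (-(Real.exp z.re * Real.cos s))) :
    3 + |z.im| / 2 - κ * Real.exp (-(Real.exp z.re * Real.cos η)) ≤ ‖G z‖ := by
  have h3 := h.fence z.re η 1 κ hκ hb
  have h4 := h.central z.re hz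
  have h5 : ‖((π + η : ℝ) : ℂ) * I‖ ≤ 2 * π := by
    rw [norm_mul, Complex.norm_I, mul_one, Complex.norm_real, Real.norm_eq_abs]
    have := abs_add_le π η
    rw [abs_of_pos Real.pi_pos] at this
    linarith
  have h6 : ‖G z - 30 - z.im * I‖ ≤ 12 + κ * Real.exp (-(Real.exp z.re * Real.cos η)) := by
    rw [h2]
    have e : G (z.re + (π + η : ℝ) * I) - 30 - (π + η : ℝ) * I =
        (G (z.re + (π + η : ℝ) * I) - G (z.re + π * I)) + (G (z.re + π * I) - 30)
          - (π + η : ℝ) * I := by ring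
    rw [e]
    have a1 := norm_sub_le ((G (z.re + (π + η : ℝ) * I) - G (z.re + π * I)) +
      (G (z.re + π * I) - 30)) (((π + η : ℝ) : ℂ) * I)
    have a2 := norm_add_le (G (z.re + (π + η : ℝ) * I) - G (z.re + π * I)) (G (z.re + π * I) - 30)
    linarith [Real.pi_lt_d2]
  have h7 : 15 + |z.im| / 2 ≤ ‖(30 : ℂ) + z.im * I‖ := by
    have a1 := Complex.abs_re_le_norm ((30 : ℂ) + z.im * I)
    have a2 := Complex.abs_im_le_norm ((30 : ℂ) + z.im * I)
    simp at a1 a2
    linarith
  have h8 : (30 : ℂ) + z.im * I = G z - (G z - 30 - z.im * I) := by ring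
  rw [h8] at h7
  linarith [norm_sub_le (G z) (G z - 30 - z.im * I)]

lemma Good.estA (h : Good G) (z : ℂ) (hz : 0 ≤ z.re) (hu : (exp z).re ≤ 0) :
    3 + |z.im| / 2 ≤ ‖G z‖ := by
  obtain ⟨η, hη, h1, h2⟩ := h.reduce z
  rw [h1, re_exp_aux] at hu
  have hR := Real.exp_pos z.re
  have hc : 0 ≤ Real.cos η := by
    by_contra hc
    push Not at hc
    nlinarith
  have := h.est z hz η 0 hη le_rfl h2 (by
    intro s hs
    simp only [zero_mul, add_zero]
    apply Real.exp_le_one_iff.mpr
    have : Real.cos |η| ≤ Real.cos s := Real.cos_le_cos_of_nonneg_of_le_pi hs.1 hη hs.2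
    rw [Real.cos_abs] at this
    have : 0 ≤ Real.exp z.re * Real.cos s := mul_nonneg hR.le (by linarith)
    linarith)
  simpa using this

lemma Good.estB (h : Good G) (z : ℂ) (hz : 0 ≤ z.re) :
    |(exp z).im| * (3 + |z.im| / 2 - ‖G z‖) ≤ Real.exp (exp z).re := by
  by_cases hu : (exp z).im = 0
  · rw [hu]; simp; positivity
  obtain ⟨η, hη, h1, h2⟩ := h.reduce z
  rw [h1, im_exp_aux] at hu
  rw [h1, re_exp_aux, im_exp_aux]
  have hR := Real.exp_pos z.re
  have hs0 : 0 ≤ Real.sin |η| := Real.sin_nonneg_of_nonneg_of_le_pi (abs_nonneg _) hη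
  have hs1 : |Real.sin η| = Real.sin |η| := by
    rcases abs_cases η with ⟨h3, _⟩ | ⟨h3, _⟩
    · rw [h3] at hs0 ⊢; exact abs_of_nonneg hs0
    · rw [h3] at hs0 ⊢
      rw [Real.sin_neg] at hs0 ⊢
      exact abs_of_nonpos (by linarith)
  have hs2 : 0 < Real.sin |η| := by
    rw [← hs1, abs_pos]
    intro h3
    apply hu
    simp [h3]
  have := h.est z hz η (Real.exp z.re * Real.sin |η|)⁻¹ hη (by positivity) h2 (by
    intro s hs
    have hsin : 0 ≤ Real.sin s := Real.sin_nonneg_of_nonneg_of_le_pi hs.1 (hs.2.trans hη)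
    by_cases hc : s ≤ π / 2
    · have h3 : 0 ≤ Real.cos s := Real.cos_nonneg_of_neg_pi_div_two_le_of_le
        (by linarith [hs.1, Real.pi_pos]) hc
      have h4 : Real.exp (-(Real.exp z.re * Real.cos s)) ≤ 1 :=
        Real.exp_le_one_iff.mpr (by have := mul_nonneg hR.le h3; linarith)
      have h5 : 0 ≤ (Real.exp z.re * Real.sin |η|)⁻¹ * (Real.exp z.re * Real.sin s) *
          Real.exp (-(Real.exp z.re * Real.cos s)) := by positivity
      linarith
    · push Not at hc
      have h3 : Real.sin |η| ≤ Real.sin s := by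
        rw [← Real.sin_pi_sub |η|, ← Real.sin_pi_sub s]
        apply Real.sin_le_sin_of_le_of_le_pi_div_two
        · linarith [Real.pi_pos]
        · linarith
        · linarith [hs.2]
      have h4 : 1 ≤ (Real.exp z.re * Real.sin |η|)⁻¹ * (Real.exp z.re * Real.sin s) := by
        rw [← div_eq_inv_mul, le_div_iff₀ (by positivity), one_mul]
        gcongr
      have h5 := Real.exp_pos (-(Real.exp z.re * Real.cos s))
      nlinarith)
  rw [abs_neg, abs_mul, abs_of_pos hR, hs1]
  have hp : 0 < Real.exp z.re * Real.sin |η| := by positivity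
  rw [← le_div_iff₀' hp, div_eq_inv_mul (Real.exp _)]
  linarith

noncomputable def rho (z : ℂ) : ℝ := 1 / (8 * (1 + ‖exp z‖))

lemma rho_pos (z : ℂ) : 0 < rho z := by unfold rho; positivity

lemma rho_le (z : ℂ) : rho z ≤ 1 / 8 := by
  unfold rho
  apply one_div_le_one_div_of_le (by norm_num)
  linarith [norm_nonneg (exp z)]

lemma deriv_close (z w : ℂ) (hw : w ∈ closedBall z (rho z)) :
    ‖exp (exp w) - exp (exp z)‖ ≤ ‖exp (exp z)‖ / 2 := by
  rw [mem_closedBall, dist_eq_norm] at hw
  have h0 := rho_le z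
  have h1 : ‖exp (w - z) - 1‖ ≤ 2 * ‖w - z‖ := Complex.norm_exp_sub_one_le (by linarith)
  have h2 : exp w - exp z = exp z * (exp (w - z) - 1) := by
    rw [mul_sub, ← Complex.exp_add]; simp
  have h3 : ‖exp w - exp z‖ ≤ 1 / 4 := by
    rw [h2, norm_mul]
    have : ‖exp z‖ * rho z ≤ 1 / 8 := by
      unfold rho
      rw [mul_one_div, div_le_div_iff₀ (by positivity) (by norm_num)]
      linarith
    have := norm_nonneg (exp z)
    nlinarith
  have h4 : ‖exp (exp w - exp z) - 1‖ ≤ 2 * ‖exp w - exp z‖ :=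
    Complex.norm_exp_sub_one_le (by linarith)
  have h5 : exp (exp w) - exp (exp z) = exp (exp z) * (exp (exp w - exp z) - 1) := by
    rw [mul_sub, ← Complex.exp_add]; simp
  rw [h5, norm_mul]
  have := norm_nonneg (exp (exp z))
  nlinarith

lemma Good.local_lower (h : Good G) (z w w' : ℂ) (hw : w ∈ closedBall z (rho z))
    (hw' : w' ∈ closedBall z (rho z)) : ‖exp (exp z)‖ / 2 * ‖w - w'‖ ≤ ‖G w - G w'‖ := by
  have h1 := (convex_closedBall z (rho z)).norm_image_sub_le_of_norm_hasDerivWithin_le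
    (f := fun v => G v - exp (exp z) * v) (f' := fun v => exp (exp v) - exp (exp z))
    (C := ‖exp (exp z)‖ / 2)
    (fun v _ => by
      have h0 : HasDerivAt (fun w : ℂ => exp (exp z) * w) (exp (exp z)) v := by
        simpa using (hasDerivAt_id v).const_mul (exp (exp z))
      exact ((h.deriv v).sub h0).hasDerivWithinAt)
    (fun v hv => deriv_close z v hv) hw' hw
  have h2 : exp (exp z) * (w - w') =
      (G w - G w') - (G w - exp (exp z) * w - (G w' - exp (exp z) * w')) := by ring
  have h3 := norm_sub_le (G w - G w') (G w - exp (exp z) * w - (G w' - exp (exp z) * w'))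
  rw [← h2, norm_mul] at h3
  linarith

lemma Good.bound (h : Good G) (z : ℂ) (hz : G z ≠ 0) : ‖(G z)⁻¹‖ ≤ 200 ∨
    ∃ s, G s = 0 ∧ ‖z - s‖ ≤ 1 ∧ ‖(G z)⁻¹‖ ≤ 3 * ‖(_root_.deriv G s)⁻¹‖ * ‖z - s‖⁻¹ := by
  have hρ := rho_pos z
  have hE : 0 < ‖exp (exp z)‖ := norm_pos_iff.mpr (exp_ne_zero _)
  have hGz : 0 < ‖G z‖ := norm_pos_iff.mpr hz
  by_cases hc : ‖G z‖ < ‖exp (exp z)‖ / 2 * rho z / 2
  · right
    have h1 := DiffContOnCl.ball_subset_image_closedBall (f := G) (z₀ := z) (r := rho z)
      (ε := ‖exp (exp z)‖ / 2 * rho z) h.differentiable.diffContOnCl hρ ?_ ?_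
    · obtain ⟨s, hs, hs0⟩ := h1 (show (0:ℂ) ∈ ball (G z) _ by
        rw [mem_ball, dist_eq_norm, zero_sub, norm_neg]; exact hc)
      have h2 := h.local_lower z z s (mem_closedBall_self hρ.le) hs
      rw [hs0, sub_zero] at h2
      have h3 := deriv_close z s hs
      have h4 : ‖exp (exp s)‖ ≤ 3 / 2 * ‖exp (exp z)‖ := by
        have := norm_sub_norm_le (exp (exp s)) (exp (exp z))
        linarith
      have hzs : z ≠ s := by rintro rfl; exact hz hs0
      have h5 : 0 < ‖z - s‖ := norm_pos_iff.mpr (sub_ne_zero.mpr hzs)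
      have hEs : 0 < ‖exp (exp s)‖ := norm_pos_iff.mpr (exp_ne_zero _)
      refine ⟨s, hs0, ?_, ?_⟩
      · rw [mem_closedBall, dist_eq_norm, norm_sub_rev] at hs
        linarith [rho_le z]
      · rw [h.deriv_eq, norm_inv, norm_inv]
        have h6 : ‖exp (exp s)‖ * ‖z - s‖ / 3 ≤ ‖G z‖ := by nlinarith
        calc ‖G z‖⁻¹ ≤ (‖exp (exp s)‖ * ‖z - s‖ / 3)⁻¹ := inv_anti₀ (by positivity) h6
          _ = _ := by field_simp
    · intro w hw
      have h2 := h.local_lower z w z (sphere_subset_closedBall hw) (mem_closedBall_self hρ.le)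
      rw [mem_sphere, dist_eq_norm] at hw
      rwa [hw] at h2
    · have : ∀ᶠ w in 𝓝[≠] z, G w ≠ G z := by
        filter_upwards [nhdsWithin_le_nhds (closedBall_mem_nhds z hρ), self_mem_nhdsWithin]
          with w hw hw2
        have h2 := h.local_lower z w z hw (mem_closedBall_self hρ.le)
        have h5 : 0 < ‖w - z‖ := norm_pos_iff.mpr (sub_ne_zero.mpr hw2)
        intro h3
        rw [h3, sub_self, norm_zero] at h2
        have : 0 < ‖exp (exp z)‖ / 2 * ‖w - z‖ := by positivity
        linarith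
      exact this.frequently.filter_mono nhdsWithin_le_nhds
  · left
    push Not at hc
    rw [norm_inv]
    suffices h2 : 1 / 200 ≤ ‖G z‖ by
      calc ‖G z‖⁻¹ ≤ (1 / 200)⁻¹ := inv_anti₀ (by norm_num) h2
        _ = 200 := by norm_num
    rw [Complex.norm_exp] at hc
    have hn := norm_nonneg (exp z)
    have hc2 : Real.exp (exp z).re ≤ 32 * (1 + ‖exp z‖) * ‖G z‖ := by
      have e : Real.exp (exp z).re / 2 * rho z / 2 =
          Real.exp (exp z).re / (32 * (1 + ‖exp z‖)) := by
        unfold rho; field_simp; ring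
      rw [e, div_le_iff₀ (by positivity)] at hc
      linarith
    by_cases hre : z.re ≤ 0
    · have h1 : ‖exp z‖ ≤ 1 := by
        rw [Complex.norm_exp]; exact Real.exp_le_one_iff.mpr hre
      have h2 : -1 ≤ (exp z).re := by
        have := Complex.abs_re_le_norm (exp z)
        have := neg_abs_le (exp z).re
        linarith
      have h3 : 1 / 3 ≤ Real.exp (exp z).re := by
        calc (1:ℝ) / 3 ≤ Real.exp (-1) := by linarith [Real.exp_neg_one_gt_d9]
          _ ≤ _ := Real.exp_le_exp.mpr h2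
      nlinarith
    · push Not at hre
      by_cases hG1 : 1 ≤ ‖G z‖
      · linarith
      push Not at hG1
      have h1 : 0 < (exp z).re := by
        by_contra h1
        push Not at h1
        have := h.estA z hre.le h1
        have := abs_nonneg z.im
        linarith
      have h2 := h.estB z hre.le
      have h3 : |(exp z).im| * 2 ≤ Real.exp (exp z).re := by
        refine le_trans ?_ h2
        have := abs_nonneg z.im
        gcongr
        linarith
      have h4 := Complex.norm_le_abs_re_add_abs_im (exp z)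
      rw [abs_of_pos h1] at h4
      have h5 := Real.add_one_le_exp (exp z).re
      have h6 := Real.exp_pos (exp z).re
      have h7 : 1 + ‖exp z‖ ≤ 3 / 2 * Real.exp (exp z).re := by linarith
      have h8 : Real.exp (exp z).re ≤ 48 * Real.exp (exp z).re * ‖G z‖ := by nlinarith
      by_contra h9
      push Not at h9
      nlinarith

end Pool.Agent.H603Z.CK
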