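import Pool.Agent.H603Z.CK.Polar

set_option autoImplicit false

open Complex Filter Topology Set Metric MeasureTheory
open scoped Real ENNReal

namespace Pool.Agent.H603Z.CK

noncomputable def eps (t : ℕ → ℂ) (a : ℕ → ℝ) (R : ℝ) (n : ℕ) : ℝ :=
  a n / ‖t n‖ * min (36 / R) (144 / ‖t n‖)

lemma eps_nonneg (t : ℕ → ℂ) (a : ℕ → ℝ) (ha : ∀ n, 0 ≤ a n) (R : ℝ) (hR : 0 < R) (n : ℕ) :
    0 ≤ eps t a R n := by
  unfold eps
  have := ha n
  positivity

lemma eps_le (t : ℕ → ℂ) (a : ℕ → ℝ) (ha : ∀ n, 0 ≤ a n) (R : ℝ) (n : ℕ) :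
    eps t a R n ≤ 144 * (a n / ‖t n‖ ^ 2) := by
  unfold eps
  have := ha n
  calc a n / ‖t n‖ * min (36 / R) (144 / ‖t n‖) ≤ a n / ‖t n‖ * (144 / ‖t n‖) := by
        gcongr; exact min_le_right _ _
    _ = _ := by ring

lemma eps_summable (t : ℕ → ℂ) (a : ℕ → ℝ) (ha : ∀ n, 0 ≤ a n)
    (hs : Summable fun n => a n / ‖t n‖ ^ 2) (R : ℝ) (hR : 0 < R) : Summable (eps t a R) :=
  Summable.of_nonneg_of_le (eps_nonneg t a ha R hR) (eps_le t a ha R) (hs.mul_left 144)

lemma eps_tendsto (t : ℕ → ℂ) (a : ℕ → ℝ) (ha : ∀ n, 0 ≤ a n)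
    (hs : Summable fun n => a n / ‖t n‖ ^ 2) :
    Tendsto (fun R : ℝ => ∑' n, eps t a R n) atTop (𝓝 0) := by
  have := tendsto_tsum_of_dominated_convergence (𝓕 := atTop) (f := fun (R : ℝ) n => eps t a R n)
    (g := fun _ => (0:ℝ)) (bound := fun n => 144 * (a n / ‖t n‖ ^ 2)) (hs.mul_left 144) ?_ ?_
  · simpa using this
  · intro n
    have h1 : Tendsto (fun R : ℝ => a n / ‖t n‖ * (36 / R)) atTop (𝓝 (a n / ‖t n‖ * 0)) :=
      (tendsto_const_nhds.div_atTop tendsto_id).const_mul _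
    rw [mul_zero] at h1
    refine squeeze_zero' ?_ ?_ h1
    · filter_upwards [eventually_gt_atTop 0] with R hR using eps_nonneg t a ha R hR n
    · filter_upwards with R
      unfold eps
      have := ha n
      gcongr
      exact min_le_left _ _
  · filter_upwards [eventually_gt_atTop 0] with R hR n
    rw [Real.norm_of_nonneg (eps_nonneg t a ha R hR n)]
    exact eps_le t a ha R n

lemma growth (D : ℂ → ℂ) (hD : Differentiable ℂ D) (t : ℕ → ℂ) (ht : ∀ n, t n ≠ 0) (a : ℕ → ℝ)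
    (ha : ∀ n, 0 ≤ a n) (hs : Summable fun n => a n / ‖t n‖ ^ 2) (C : ℝ) (hC : 0 ≤ C)
    (hb : ∀ z, z ∉ range t → ‖D z‖ₑ ≤ ENNReal.ofReal C +
      ∑' n, ENNReal.ofReal (a n * (‖z‖ + 1) / ‖t n‖ * ‖z - t n‖⁻¹))
    (R : ℝ) (hR : 1 ≤ R) (w : ℂ) (hw : ‖w‖ ≤ R) :
    ‖D w‖ ≤ 4 * C + R * ∑' n, eps t a R n := by
  have hR0 : 0 < R := by linarith
  have hpi := Real.pi_pos
  have h1 := sub_mean_ball D hD w R hR0.le
  have hsub : ball w R ⊆ ball 0 (2 * R) := by
    intro z hz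
    rw [mem_ball, dist_eq_norm] at hz
    rw [mem_ball_zero_iff]
    have := norm_add_le (z - w) w
    rw [sub_add_cancel] at this
    linarith
  have h2 := h1.trans (lintegral_mono_set hsub)
  have hae : ∀ᵐ z : ℂ, z ∉ range t := (countable_range t).ae_notMem _
  have h3 : ∫⁻ z in ball (0:ℂ) (2 * R), ‖D z‖ₑ ≤ ∫⁻ z in ball (0:ℂ) (2 * R), (ENNReal.ofReal C +
      ∑' n, ENNReal.ofReal (a n * (3 * R) / ‖t n‖) * ENNReal.ofReal (‖z - t n‖⁻¹)) := by
    refine lintegral_mono_ae ?_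
    filter_upwards [ae_restrict_of_ae hae, ae_restrict_mem measurableSet_ball] with z hz hz2
    refine (hb z hz).trans ?_
    gcongr with n
    have := ha n
    rw [← ENNReal.ofReal_mul (by positivity)]
    apply ENNReal.ofReal_le_ofReal
    rw [mem_ball_zero_iff] at hz2
    gcongr
    linarith
  have h4 : ∫⁻ z in ball (0:ℂ) (2 * R), (ENNReal.ofReal C +
      ∑' n, ENNReal.ofReal (a n * (3 * R) / ‖t n‖) * ENNReal.ofReal (‖z - t n‖⁻¹)) ≤
      ENNReal.ofReal (π * R ^ 2) * ENNReal.ofReal (4 * C + R * ∑' n, eps t a R n) := by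
    rw [lintegral_add_left measurable_const, setLIntegral_const, volume_ball' _ _ (by positivity),
      lintegral_tsum (fun n => ((measurable_ker (t n)).const_mul _).aemeasurable)]
    have hsum := eps_summable t a ha hs R hR0
    have hnn : 0 ≤ ∑' n, eps t a R n := tsum_nonneg (eps_nonneg t a ha R hR0)
    rw [ENNReal.ofReal_add (by positivity) (by positivity), mul_add]
    refine add_le_add ?_ ?_
    · rw [← ENNReal.ofReal_mul hC, ← ENNReal.ofReal_mul (by positivity)]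
      apply le_of_eq; congr 1; ring
    · rw [ENNReal.ofReal_mul hR0.le,
        ENNReal.ofReal_tsum_of_nonneg (eps_nonneg t a ha R hR0) hsum, ← ENNReal.tsum_mul_left,
        ← ENNReal.tsum_mul_left]
      refine ENNReal.tsum_le_tsum fun n => ?_
      rw [lintegral_const_mul _ (measurable_ker (t n))]
      have htn : 0 < ‖t n‖ := norm_pos_iff.mpr (ht n)
      have := ha n
      calc ENNReal.ofReal (a n * (3 * R) / ‖t n‖) *
            ∫⁻ z in ball 0 (2 * R), ENNReal.ofReal (‖z - t n‖⁻¹)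
          ≤ ENNReal.ofReal (a n * (3 * R) / ‖t n‖) *
            ENNReal.ofReal (min (12 * π * R) (48 * π * R ^ 2 / ‖t n‖)) := by
            gcongr; exact lintegral_ker_le _ (ht n) R hR0
        _ = _ := by
            rw [← ENNReal.ofReal_mul (by positivity), ← ENNReal.ofReal_mul (by positivity),
              ← ENNReal.ofReal_mul (by positivity)]
            congr 1
            unfold eps
            have e : min (12 * π * R) (48 * π * R ^ 2 / ‖t n‖) =
                (π * R ^ 2 / 3) * min (36 / R) (144 / ‖t n‖) := by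
              rw [mul_min_of_nonneg _ _ (by positivity)]
              congr 1
              · field_simp; ring
              · field_simp; ring
            rw [e]
            field_simp
  have h5 := (h2.trans h3).trans h4
  rw [ENNReal.mul_le_mul_iff_right (by simp; positivity) ENNReal.ofReal_ne_top, ← ofReal_norm,
    ENNReal.ofReal_le_ofReal_iff] at h5
  · exact h5
  · have hnn : 0 ≤ ∑' n, eps t a R n := tsum_nonneg (eps_nonneg t a ha R hR0)
    positivity

lemma liouville (D : ℂ → ℂ) (hD : Differentiable ℂ D) (t : ℕ → ℂ) (ht : ∀ n, t n ≠ 0) (a : ℕ → ℝ)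
    (ha : ∀ n, 0 ≤ a n) (hs : Summable fun n => a n / ‖t n‖ ^ 2) (C : ℝ) (hC : 0 ≤ C)
    (hb : ∀ z, z ∉ range t → ‖D z‖ₑ ≤ ENNReal.ofReal C +
      ∑' n, ENNReal.ofReal (a n * (‖z‖ + 1) / ‖t n‖ * ‖z - t n‖⁻¹)) (z : ℂ) :
    deriv D z = 0 := by
  have h1 : Tendsto (fun R : ℝ => 8 * C / R + 2 * ∑' n, eps t a R n) atTop (𝓝 (0 + 2 * 0)) :=
    (tendsto_const_nhds.div_atTop tendsto_id).add ((eps_tendsto t a ha hs).const_mul 2)
  rw [mul_zero, add_zero] at h1
  have h2 : ‖deriv D z‖ ≤ 0 := by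
    refine ge_of_tendsto h1 ?_
    filter_upwards [eventually_ge_atTop 1, eventually_ge_atTop (2 * ‖z‖)] with R hR hR2
    have hR0 : 0 < R := by linarith
    have := Complex.norm_deriv_le_of_forall_mem_sphere_norm_le (c := z) (R := R / 2)
      (C := 4 * C + R * ∑' n, eps t a R n) (f := D) (by positivity) hD.diffContOnCl ?_
    · refine this.trans (le_of_eq ?_)
      field_simp
      ring
    · intro w hw
      apply growth D hD t ht a ha hs C hC hb R hR
      rw [mem_sphere, dist_eq_norm] at hw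
      have := norm_add_le (w - z) z
      rw [sub_add_cancel] at this
      linarith
  exact norm_le_zero_iff.mp h2

lemma exists_entire (f : ℂ → ℂ)
    (h : ∀ z0, ∃ g : ℂ → ℂ, AnalyticAt ℂ g z0 ∧ f =ᶠ[𝓝[≠] z0] g) :
    ∃ D : ℂ → ℂ, Differentiable ℂ D ∧
      ∀ z0 (g : ℂ → ℂ), AnalyticAt ℂ g z0 → f =ᶠ[𝓝[≠] z0] g → D =ᶠ[𝓝 z0] g := by
  have key : ∀ z0 (g : ℂ → ℂ), AnalyticAt ℂ g z0 → f =ᶠ[𝓝[≠] z0] g →
      (fun z => limUnder (𝓝[≠] z) f) =ᶠ[𝓝 z0] g := by
    intro z0 g hg hfg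
    have h1 : ∀ᶠ z in 𝓝 z0, z ≠ z0 → f z = g z := eventually_nhdsWithin_iff.mp hfg
    filter_upwards [h1.eventually_nhds, hg.eventually_analyticAt] with z hz hgz
    have h2 : f =ᶠ[𝓝[≠] z] g := by
      by_cases hzz : z = z0
      · subst hzz; exact hfg
      · have : ∀ᶠ w in 𝓝 z, w ≠ z0 := isOpen_ne.mem_nhds hzz
        filter_upwards [nhdsWithin_le_nhds hz, nhdsWithin_le_nhds this] with w hw hw2
          using hw hw2
    have h3 : Tendsto f (𝓝[≠] z) (𝓝 (g z)) :=
      (hgz.continuousAt.tendsto.mono_left nhdsWithin_le_nhds).congr' h2.symm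
    exact h3.limUnder_eq
  refine ⟨fun z => limUnder (𝓝[≠] z) f, fun z0 => ?_, key⟩
  obtain ⟨g, hg, hfg⟩ := h z0
  exact hg.differentiableAt.congr_of_eventuallyEq (key z0 g hg hfg)

end Pool.Agent.H603Z.CK
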