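import Pool.Agent.H603Z.CK.Summ

set_option autoImplicit false

open Complex Filter Topology Set Metric
open scoped Real

namespace Pool.Agent.H603Z.CK

variable {G : ℂ → ℂ}

lemma Good.arc (h : Good G) (r : ℝ) (hr : 10 ≤ r) (θ : ℝ) (hθ : θ ∈ Icc (π / r) ((π + 1 / 2) / r)) :
    Real.exp (r / 2) / 2 ≤ Real.posLog ‖G (circleMap 0 r θ) ^ 2 / exp (exp (circleMap 0 r θ))‖ := by
  have hr0 : 0 < r := by linarith
  have hpi3 := Real.pi_gt_three
  have hpi4 := Real.pi_lt_d2
  obtain ⟨h1, h2⟩ := hθ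
  rw [div_le_iff₀ hr0] at h1
  rw [le_div_iff₀ hr0] at h2
  have h3 : 0 < θ := by
    by_contra hc
    push Not at hc
    nlinarith
  have h4 : θ ≤ 2 / 5 := by nlinarith
  set z := circleMap 0 r θ with hz
  have hre : z.re = r * Real.cos θ := by simp [hz, circleMap, Complex.exp_ofReal_mul_I_re]
  have him : z.im = r * Real.sin θ := by simp [hz, circleMap, Complex.exp_ofReal_mul_I_im]
  have h5 : r / 2 ≤ z.re := by
    rw [hre]
    have := Real.one_sub_sq_div_two_le_cos (x := θ)
    have : 1 / 2 ≤ Real.cos θ := by nlinarith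
    nlinarith
  have h6 : z.im ≤ π + 1 / 2 := by
    rw [him]
    have := Real.sin_le h3.le
    nlinarith
  have h7 : π - 1 / 2 ≤ z.im := by
    rw [him]
    have a1 := Real.sin_gt_sub_cube h3
    have a2 : θ ^ 2 ≤ 4 / 25 := by nlinarith
    have a3 : r * θ * θ ^ 2 ≤ 4 * (4 / 25) := by
      apply mul_le_mul (by linarith) a2 (by positivity) (by norm_num)
    nlinarith
  have h8 : Real.cos z.im ≤ -1 / 2 := by
    have a1 := Real.one_sub_sq_div_two_le_cos (x := z.im - π)
    rw [Real.cos_sub_pi] at a1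
    have a2 : (z.im - π) ^ 2 ≤ 1 / 4 := by nlinarith
    linarith
  have h9 : (exp z).re ≤ -(Real.exp (r / 2) / 2) := by
    rw [Complex.exp_re]
    have a1 : Real.exp (r / 2) ≤ Real.exp z.re := Real.exp_le_exp.mpr h5
    have a2 := Real.exp_pos (r / 2)
    nlinarith
  have h10 := h.estA z (by linarith) (by linarith [Real.exp_pos (r / 2)])
  have h11 : 1 ≤ ‖G z‖ := by linarith [abs_nonneg z.im]
  refine le_trans ?_ (le_max_right _ _)
  rw [norm_div, norm_pow, Complex.norm_exp, Real.le_log_iff_exp_le (by positivity),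
    le_div_iff₀ (Real.exp_pos _), ← Real.exp_add]
  calc Real.exp (Real.exp (r / 2) / 2 + (exp z).re) ≤ 1 := Real.exp_le_one_iff.mpr (by linarith)
    _ ≤ _ := one_le_pow₀ h11

lemma Good.prox (h : Good G) (r : ℝ) (hr : 10 ≤ r) :
    Real.exp (r / 2) / (32 * r) ≤
      ValueDistribution.proximity (fun z => G z ^ 2 / exp (exp z)) ⊤ r := by
  have hr0 : 0 < r := by linarith
  have hpi3 := Real.pi_gt_three
  have hpi4 := Real.pi_lt_d2
  rw [ValueDistribution.proximity_top, Real.circleAverage_def, smul_eq_mul]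
  have hc : Continuous fun θ : ℝ =>
      Real.posLog ‖G (circleMap 0 r θ) ^ 2 / exp (exp (circleMap 0 r θ))‖ := by
    have h1 := h.differentiable.continuous
    have h2 : Continuous fun z : ℂ => G z ^ 2 / exp (exp z) :=
      (h1.pow 2).div (by fun_prop) (fun z => exp_ne_zero _)
    exact Real.continuous_posLog.comp (h2.comp (continuous_circleMap 0 r)).norm
  have hab : π / r ≤ (π + 1 / 2) / r := by gcongr; linarith
  have h1 : ∫ θ in (π / r)..((π + 1 / 2) / r), Real.exp (r / 2) / 2 ≤
      ∫ θ in (π / r)..((π + 1 / 2) / r),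
        Real.posLog ‖G (circleMap 0 r θ) ^ 2 / exp (exp (circleMap 0 r θ))‖ :=
    intervalIntegral.integral_mono_on hab (by simp) (hc.intervalIntegrable _ _) (h.arc r hr)
  have h2 : ∫ θ in (π / r)..((π + 1 / 2) / r),
        Real.posLog ‖G (circleMap 0 r θ) ^ 2 / exp (exp (circleMap 0 r θ))‖ ≤
      ∫ θ in (0:ℝ)..(2 * π),
        Real.posLog ‖G (circleMap 0 r θ) ^ 2 / exp (exp (circleMap 0 r θ))‖ := by
    apply intervalIntegral.integral_mono_interval (by positivity) hab
    · rw [div_le_iff₀ hr0]; nlinarith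
    · exact Eventually.of_forall fun θ => Real.posLog_nonneg
    · exact hc.intervalIntegrable _ _
  have h3 := h1.trans h2
  rw [intervalIntegral.integral_const, smul_eq_mul] at h3
  refine le_trans ?_ (mul_le_mul_of_nonneg_left h3 (by positivity))
  have e : (2 * π)⁻¹ * (((π + 1 / 2) / r - π / r) * (Real.exp (r / 2) / 2)) =
      Real.exp (r / 2) / (8 * π * r) := by field_simp; ring
  rw [e]
  have := Real.exp_pos (r / 2)
  apply div_le_div_of_nonneg_left this.le (by positivity)
  nlinarith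

lemma Good.infinite_order (h : Good G) (ρ R : ℝ) : ∃ r > R, r ≠ 0 ∧
    r ^ ρ < ValueDistribution.characteristic (fun z => exp (exp z) / G z ^ 2) ⊤ r := by
  set f : ℂ → ℂ := fun z => exp (exp z) / G z ^ 2 with hf
  have hm : Meromorphic f := by
    intro z
    have h1 : AnalyticAt ℂ (fun z => exp (exp z)) z := by fun_prop
    exact h1.meromorphicAt.div ((h.differentiable.analyticAt z).pow 2).meromorphicAt
  have hinv : f⁻¹ = fun z => G z ^ 2 / exp (exp z) := by
    ext z; simp [hf]
  set C := max |Real.log ‖f 0‖| |Real.log ‖meromorphicTrailingCoeffAt f 0‖|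
  have key : ∀ r, 10 ≤ r → Real.exp (r / 2) / (32 * r) - C ≤
      ValueDistribution.characteristic f ⊤ r := by
    intro r hr
    have h1 := ValueDistribution.characteristic_sub_characteristic_inv_le (R := r) hm
    have h2 := h.prox r hr
    rw [← hinv] at h2
    have h3 := ValueDistribution.logCounting_nonneg (f := f⁻¹) (e := ⊤) (r := r) (by linarith)
    have h4 : ValueDistribution.characteristic f⁻¹ ⊤ r =
      ValueDistribution.proximity f⁻¹ ⊤ r + ValueDistribution.logCounting f⁻¹ ⊤ r := rfl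
    have := (abs_le.mp h1).1
    linarith
  set N : ℝ := max ρ 0 with hN
  have h1 := tendsto_exp_mul_div_rpow_atTop (N + 1) (1 / 2) (by norm_num)
  obtain ⟨r, hr1, hr2, hr3⟩ := ((h1.eventually_gt_atTop (32 * (1 + |C|))).and
    ((eventually_ge_atTop 10).and (eventually_gt_atTop R))).exists
  have hr0 : 0 < r := by linarith
  refine ⟨r, hr3, hr0.ne', lt_of_lt_of_le ?_ (key r hr2)⟩
  have a1 : r ^ ρ ≤ r ^ N := Real.rpow_le_rpow_of_exponent_le (by linarith) (le_max_left _ _)
  have a2 : 1 ≤ r ^ N := Real.one_le_rpow (by linarith) (le_max_right _ _)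
  rw [lt_div_iff₀ (by positivity), Real.rpow_add_one hr0.ne',
    show 1 / 2 * r = r / 2 by ring] at hr1
  have a3 : (1 + |C|) * r ^ N < Real.exp (r / 2) / (32 * r) := by
    rw [lt_div_iff₀ (by positivity)]; linarith
  have a4 := le_abs_self C
  have a5 := abs_nonneg C
  nlinarith

theorem main : ∃ (c t : ℕ → ℂ), Function.Injective t ∧ (∀ n, t n ≠ 0) ∧
      Tendsto t atTop (cocompact ℂ) ∧
      Summable (fun n => ‖c n‖ / ‖t n‖ ^ 2) ∧
      (∀ ρ : ℝ, ∀ R : ℝ, ∃ r > R,
        r ^ ρ < ValueDistribution.characteristic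
          (fun z : ℂ => ∑' n, c n / (z - t n) ^ 2) ⊤ r) ∧
      ∀ z : ℂ, ¬ 0 < meromorphicOrderAt (fun w : ℂ => ∑' n, c n / (w - t n) ^ 2) z := by
  obtain ⟨G, h⟩ := exists_good
  obtain ⟨t, hinj, ht0, ht, hZ⟩ := h.exists_enum
  have hs := h.summable t hinj
  have hrep := representation G h.differentiable (fun z => by rw [h.deriv_eq]; exact exp_ne_zero _)
    t hinj ht0 ht hZ hs 200 (by norm_num) h.bound
  have hev : ∀ z, (fun w : ℂ => ∑' n, res G t n / (w - t n) ^ 2) =ᶠ[𝓝[≠] z]
      fun w => exp (exp w) / G w ^ 2 := by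
    intro z
    obtain ⟨δ, hδ, hsep⟩ := sep t ht z
    filter_upwards [nhdsWithin_le_nhds (ball_mem_nhds z hδ), self_mem_nhdsWithin] with w hw hw2
    rw [hrep w, h.deriv_eq]
    rintro ⟨n, rfl⟩
    have := hsep n hw2
    rw [mem_ball, dist_eq_norm, norm_sub_rev] at hw
    linarith
  refine ⟨res G t, t, hinj, ht0, ht, hs, fun ρ R => ?_, fun z hz => ?_⟩
  · obtain ⟨r, hr, hr0, h1⟩ := h.infinite_order ρ R
    refine ⟨r, hr, ?_⟩
    rw [ValueDistribution.characteristic_congr_codiscrete (g := fun w => exp (exp w) / G w ^ 2)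
      _ hr0]
    · exact h1
    · rw [EventuallyEq, Filter.Eventually, codiscrete,
        mem_codiscreteWithin_iff_forall_mem_nhdsNE]
      intro x _
      have h2 : {x | ∑' (n : ℕ), res G t n / (x - t n) ^ 2 = exp (exp x) / G x ^ 2} ∈ 𝓝[≠] x :=
        hev x
      simpa using h2
  · rw [meromorphicOrderAt_congr (hev z)] at hz
    have h1 := tendsto_zero_of_meromorphicOrderAt_pos hz
    have h2 : Tendsto (fun w => G w ^ 2) (𝓝[≠] z) (𝓝 (G z ^ 2)) :=
      ((h.differentiable.continuous.pow 2).tendsto z).mono_left nhdsWithin_le_nhds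
    have h3 := h1.mul h2
    rw [zero_mul] at h3
    have h4 : Tendsto (fun w => exp (exp w)) (𝓝[≠] z) (𝓝 (exp (exp z))) :=
      ((by fun_prop : Continuous fun w => exp (exp w)).tendsto z).mono_left nhdsWithin_le_nhds
    have h5 : (fun w => exp (exp w) / G w ^ 2 * G w ^ 2) =ᶠ[𝓝[≠] z] fun w => exp (exp w) := by
      obtain ⟨δ, hδ, hsep⟩ := sep t ht z
      filter_upwards [nhdsWithin_le_nhds (ball_mem_nhds z hδ), self_mem_nhdsWithin] with w hw hw2
      have : G w ≠ 0 := by
        intro h0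
        obtain ⟨n, rfl⟩ := hZ w h0
        have := hsep n hw2
        rw [mem_ball, dist_eq_norm, norm_sub_rev] at hw
        linarith
      field_simp
    exact exp_ne_zero _ (tendsto_nhds_unique h4 (h3.congr' h5))

end Pool.Agent.H603Z.CK
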