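import Mathlib

set_option autoImplicit false

open Complex Filter Topology Set Metric MeasureTheory
open scoped Real ENNReal

namespace Pool.Agent.H603Z.CK

lemma lintegral_ball_polar (g : ℂ → ℝ≥0∞) (hg : Measurable g) (w : ℂ) (R : ℝ) :
    ∫⁻ z in ball w R, g z =
      ∫⁻ r in Ioo 0 R, ENNReal.ofReal r * ∫⁻ θ in Ioo (-π) π, g (circleMap w r θ) := by
  have h1 : ∫⁻ z in ball w R, g z = ∫⁻ z, (ball (0:ℂ) R).indicator (fun z => g (w + z)) z := by
    rw [← lintegral_indicator measurableSet_ball, ← lintegral_add_left_eq_self _ w]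
    congr 1
    ext z
    by_cases hz : z ∈ ball (0:ℂ) R
    · have : w + z ∈ ball w R := by simpa using hz
      simp [indicator, hz, this]
    · have : w + z ∉ ball w R := by simpa using hz
      simp [indicator, hz, this]
  rw [h1, ← Complex.lintegral_comp_polarCoord_symm, polarCoord_target, Measure.volume_eq_prod,
    setLIntegral_prod]
  · have h2 : Ioo (0:ℝ) R = Iio R ∩ Ioi 0 := by
      ext x; simp [and_comm]
    rw [h2, ← Measure.restrict_restrict measurableSet_Iio, ← lintegral_indicator measurableSet_Iio]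
    refine setLIntegral_congr_fun measurableSet_Ioi ?_
    intro r hr
    have hr0 : 0 < r := hr
    by_cases hR : r < R
    · simp only [indicator, mem_Iio, hR, if_true]
      rw [← lintegral_const_mul' _ _ ENNReal.ofReal_ne_top]
      refine setLIntegral_congr_fun measurableSet_Ioo ?_
      intro θ _
      have : Complex.polarCoord.symm (r, θ) ∈ ball (0:ℂ) R := by
        rw [mem_ball_zero_iff, Complex.norm_polarCoord_symm, abs_of_pos hr0]; exact hR
      simp only [this, if_true, smul_eq_mul]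
      congr 2
      simp [circleMap, Complex.exp_mul_I]
    · simp only [indicator, mem_Iio, hR, if_false]
      have : ∀ θ : ℝ, Complex.polarCoord.symm (r, θ) ∉ ball (0:ℂ) R := by
        intro θ
        rw [mem_ball_zero_iff, Complex.norm_polarCoord_symm, abs_of_pos hr0]; exact hR
      simp only [this, if_false, smul_zero, lintegral_zero]
  · apply Measurable.aemeasurable
    have hc : Measurable (fun p : ℝ × ℝ => Complex.polarCoord.symm p) := by
      simp only [Complex.polarCoord_symm_apply]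
      fun_prop
    have hi : Measurable ((ball (0:ℂ) R).indicator (fun z => g (w + z))) :=
      (hg.comp (measurable_const_add w)).indicator measurableSet_ball
    simp only [smul_eq_mul]
    exact (ENNReal.measurable_ofReal.comp measurable_fst).mul (hi.comp hc)

lemma lintegral_Ioo_id (R : ℝ) (hR : 0 ≤ R) :
    ∫⁻ r in Ioo 0 R, ENNReal.ofReal r = ENNReal.ofReal (R ^ 2 / 2) := by
  rw [← ofReal_integral_eq_lintegral_ofReal]
  · rw [← integral_Ioc_eq_integral_Ioo, ← intervalIntegral.integral_of_le hR, integral_id]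
    simp
  · exact (continuous_id.integrableOn_Icc (a := 0) (b := R)).mono_set Ioo_subset_Icc_self
  · filter_upwards [ae_restrict_mem measurableSet_Ioo] with x hx using hx.1.le

lemma sub_mean_circle (D : ℂ → ℂ) (hD : Differentiable ℂ D) (w : ℂ) (r : ℝ) :
    ENNReal.ofReal (2 * π) * ‖D w‖ₑ ≤ ∫⁻ θ in Ioo (-π) π, ‖D (circleMap w r θ)‖ₑ := by
  have h1 : Real.circleAverage D w r = D w := (hD.diffContOnCl).circleAverage
  rw [Real.circleAverage_eq_integral_add (-π)] at h1
  rw [intervalIntegral.integral_comp_add_right (fun θ => D (circleMap w r θ))] at h1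
  have h2 : (0:ℝ) + -π = -π := by ring
  have h3 : 2 * π + -π = π := by ring
  rw [h2, h3, intervalIntegral.integral_of_le (by linarith [Real.pi_pos]),
    integral_Ioc_eq_integral_Ioo] at h1
  have h4 : ∫ θ in Ioo (-π) π, D (circleMap w r θ) = ((2 * π : ℝ) : ℂ) * D w := by
    rw [← h1, Complex.real_smul, ← mul_assoc, ← Complex.ofReal_mul,
      mul_inv_cancel₀ (by positivity)]
    simp
  refine le_trans (le_of_eq ?_) (enorm_integral_le_lintegral_enorm _)
  rw [h4, enorm_mul]
  congr 1
  rw [← ofReal_norm, Complex.norm_real, Real.norm_of_nonneg (by positivity)]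

lemma sub_mean_ball (D : ℂ → ℂ) (hD : Differentiable ℂ D) (w : ℂ) (R : ℝ) (hR : 0 ≤ R) :
    ENNReal.ofReal (π * R ^ 2) * ‖D w‖ₑ ≤ ∫⁻ z in ball w R, ‖D z‖ₑ := by
  rw [lintegral_ball_polar _ hD.continuous.measurable.enorm]
  calc ENNReal.ofReal (π * R ^ 2) * ‖D w‖ₑ
      = (∫⁻ r in Ioo 0 R, ENNReal.ofReal r) * (ENNReal.ofReal (2 * π) * ‖D w‖ₑ) := by
        rw [lintegral_Ioo_id R hR, ← mul_assoc, ← ENNReal.ofReal_mul (by positivity)]
        congr 2; ring
    _ = ∫⁻ r in Ioo 0 R, ENNReal.ofReal r * (ENNReal.ofReal (2 * π) * ‖D w‖ₑ) := by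
        rw [lintegral_mul_const _ ENNReal.measurable_ofReal]
    _ ≤ _ := by
        refine lintegral_mono fun r => ?_
        gcongr
        exact sub_mean_circle D hD w r

lemma measurable_ker (t : ℂ) : Measurable (fun z : ℂ => ENNReal.ofReal (‖z - t‖⁻¹)) := by
  fun_prop

lemma lintegral_ker_self (t : ℂ) (ρ : ℝ) (hρ : 0 ≤ ρ) :
    ∫⁻ z in ball t ρ, ENNReal.ofReal (‖z - t‖⁻¹) = ENNReal.ofReal (2 * π * ρ) := by
  rw [lintegral_ball_polar _ (measurable_ker t)]
  have : ∀ r ∈ Ioo (0:ℝ) ρ, ENNReal.ofReal r * ∫⁻ θ in Ioo (-π) π,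
      ENNReal.ofReal (‖circleMap t r θ - t‖⁻¹) = ENNReal.ofReal (2 * π) := by
    intro r hr
    simp only [circleMap_sub_center, norm_circleMap_zero, abs_of_pos hr.1, setLIntegral_const,
      Real.volume_Ioo]
    rw [← ENNReal.ofReal_mul (by have := hr.1; positivity), ← ENNReal.ofReal_mul hr.1.le]
    congr 1
    have := hr.1.ne'
    field_simp
    ring
  rw [setLIntegral_congr_fun measurableSet_Ioo this, setLIntegral_const, Real.volume_Ioo,
    ← ENNReal.ofReal_mul (by positivity)]
  simp

lemma volume_ball' (w : ℂ) (R : ℝ) (hR : 0 ≤ R) :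
    volume (ball w R) = ENNReal.ofReal (π * R ^ 2) := by
  rw [Complex.volume_ball, ← ENNReal.ofReal_pow hR, mul_comm, ENNReal.ofReal_mul Real.pi_pos.le]
  congr 1
  rw [← ENNReal.ofReal_coe_nnreal]
  rfl

lemma lintegral_ker_le (t : ℂ) (ht : t ≠ 0) (R : ℝ) (hR : 0 < R) :
    ∫⁻ z in ball 0 (2 * R), ENNReal.ofReal (‖z - t‖⁻¹) ≤
      ENNReal.ofReal (min (12 * π * R) (48 * π * R ^ 2 / ‖t‖)) := by
  have ht0 : 0 < ‖t‖ := norm_pos_iff.mpr ht
  have hpi := Real.pi_pos
  by_cases h : ‖t‖ ≤ 4 * R
  · have hsub : ball (0:ℂ) (2 * R) ⊆ ball t (6 * R) := by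
      intro z hz
      rw [mem_ball_zero_iff] at hz
      rw [mem_ball, dist_eq_norm]
      linarith [norm_sub_le z t]
    refine (lintegral_mono_set hsub).trans ?_
    rw [lintegral_ker_self t _ (by positivity)]
    apply ENNReal.ofReal_le_ofReal
    apply le_min (by linarith)
    rw [le_div_iff₀ ht0]
    nlinarith [mul_pos hpi hR]
  · push Not at h
    calc ∫⁻ z in ball 0 (2 * R), ENNReal.ofReal (‖z - t‖⁻¹)
        ≤ ∫⁻ _ in ball (0:ℂ) (2 * R), ENNReal.ofReal (2 / ‖t‖) := by
          refine setLIntegral_mono' measurableSet_ball fun z hz => ?_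
          rw [mem_ball_zero_iff] at hz
          apply ENNReal.ofReal_le_ofReal
          have h1 : ‖t‖ / 2 ≤ ‖z - t‖ := by
            have := norm_sub_norm_le t z
            rw [norm_sub_rev] at this
            linarith
          calc ‖z - t‖⁻¹ ≤ (‖t‖ / 2)⁻¹ := inv_anti₀ (by positivity) h1
            _ = 2 / ‖t‖ := by field_simp
      _ = ENNReal.ofReal (2 / ‖t‖ * (π * (2 * R) ^ 2)) := by
          rw [setLIntegral_const, volume_ball' _ _ (by positivity),
            ← ENNReal.ofReal_mul (by positivity)]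
      _ ≤ _ := by
          apply ENNReal.ofReal_le_ofReal
          have e : 2 / ‖t‖ * (π * (2 * R) ^ 2) = 8 * π * R ^ 2 / ‖t‖ := by field_simp; ring
          rw [e]
          apply le_min
          · rw [div_le_iff₀ ht0]
            nlinarith [mul_pos hpi hR]
          · gcongr; norm_num

end Pool.Agent.H603Z.CK
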