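import Pool.Agent.H603Z.CK.Liou

set_option autoImplicit false

open Complex Filter Topology Set Metric MeasureTheory
open scoped Real ENNReal

namespace Pool.Agent.H603Z.CK

lemma sep (t : ℕ → ℂ) (ht : Tendsto t atTop (cocompact ℂ)) (z0 : ℂ) :
    ∃ δ : ℝ, 0 < δ ∧ ∀ n, t n ≠ z0 → 2 * δ ≤ ‖z0 - t n‖ := by
  have h1 : ∀ᶠ n in atTop, t n ∈ (closedBall z0 1)ᶜ :=
    ht.eventually ((isCompact_closedBall z0 1).compl_mem_cocompact)
  obtain ⟨N, hN⟩ := eventually_atTop.mp h1
  have h2 : ∀ N : ℕ, ∃ δ : ℝ, 0 < δ ∧ δ ≤ 1 / 2 ∧ ∀ n < N, t n ≠ z0 → 2 * δ ≤ ‖z0 - t n‖ := by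
    intro N
    induction N with
    | zero => exact ⟨1 / 2, by norm_num, le_rfl, by simp⟩
    | succ N ih =>
      obtain ⟨δ, h0, h1, h2⟩ := ih
      by_cases hN : t N = z0
      · refine ⟨δ, h0, h1, fun n hn hne => ?_⟩
        rcases Nat.lt_succ_iff_lt_or_eq.mp hn with h | h
        · exact h2 n h hne
        · subst h; exact absurd hN hne
      · have hp : 0 < ‖z0 - t N‖ := norm_pos_iff.mpr (sub_ne_zero.mpr (Ne.symm hN))
        refine ⟨min δ (‖z0 - t N‖ / 2), by positivity, (min_le_left _ _).trans h1,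
          fun n hn hne => ?_⟩
        rcases Nat.lt_succ_iff_lt_or_eq.mp hn with h | h
        · have := h2 n h hne
          have := min_le_left δ (‖z0 - t N‖ / 2)
          linarith
        · subst h
          have := min_le_right δ (‖z0 - t n‖ / 2)
          linarith
  obtain ⟨δ, h0, h1, h3⟩ := h2 N
  refine ⟨δ, h0, fun n hn => ?_⟩
  by_cases hnN : n < N
  · exact h3 n hnN hn
  · have := hN n (not_lt.mp hnN)
    rw [mem_compl_iff, mem_closedBall, dist_eq_norm, norm_sub_rev, not_le] at this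
    linarith

noncomputable def term (t r : ℕ → ℂ) (n : ℕ) (z : ℂ) : ℂ := r n * ((z - t n)⁻¹ + (t n)⁻¹)

lemma norm_term (t r : ℕ → ℂ) (n : ℕ) (z : ℂ) (ht : t n ≠ 0) (hz : z ≠ t n) :
    ‖term t r n z‖ = ‖r n‖ * ‖z‖ / ‖t n‖ * ‖z - t n‖⁻¹ := by
  have h1 : z - t n ≠ 0 := sub_ne_zero.mpr hz
  have : term t r n z = r n * z / t n * (z - t n)⁻¹ := by
    unfold term; field_simp; ring
  rw [this, norm_mul, norm_div, norm_mul, norm_inv]

open Classical in
noncomputable def termT (t r : ℕ → ℂ) (z0 : ℂ) (n : ℕ) (z : ℂ) : ℂ :=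
  if t n = z0 then 0 else term t r n z

lemma hasDerivAt_term (t r : ℕ → ℂ) (n : ℕ) (z : ℂ) (hz : z ≠ t n) :
    HasDerivAt (term t r n) (-(r n / (z - t n) ^ 2)) z := by
  have h1 : z - t n ≠ 0 := sub_ne_zero.mpr hz
  have h2 : HasDerivAt (fun w => (w - t n)⁻¹) (-1 / (z - t n) ^ 2) z :=
    ((hasDerivAt_id z).sub_const (t n)).inv h1
  have h3 := (h2.add_const (t n)⁻¹).const_mul (r n)
  have e : -(r n / (z - t n) ^ 2) = r n * (-1 / (z - t n) ^ 2) := by ring
  rw [e]
  exact h3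

lemma local_bound (t r : ℕ → ℂ) (ht0 : ∀ n, t n ≠ 0) (z0 : ℂ) (δ : ℝ) (hδ : 0 < δ)
    (hsep : ∀ n, t n ≠ z0 → 2 * δ ≤ ‖z0 - t n‖) (n : ℕ) (z : ℂ) (hz : z ∈ ball z0 δ) :
    (t n ≠ z0 → z ≠ t n) ∧
    ‖termT t r z0 n z‖ ≤ ((‖z0‖ + δ) * (1 + (‖z0‖ + δ) / δ)) * (‖r n‖ / ‖t n‖ ^ 2) := by
  rw [mem_ball, dist_eq_norm] at hz
  have hzn : ‖z‖ ≤ ‖z0‖ + δ := by
    have := norm_add_le (z - z0) z0
    rw [sub_add_cancel] at this
    linarith
  have key : t n ≠ z0 → δ ≤ ‖z - t n‖ := by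
    intro h
    have h1 := hsep n h
    have h2 := norm_sub_le_norm_sub_add_norm_sub z0 z (t n)
    rw [norm_sub_rev z0 z] at h2
    linarith
  have hne : t n ≠ z0 → z ≠ t n := by
    intro h h2
    have := key h
    rw [h2, sub_self, norm_zero] at this
    linarith
  refine ⟨hne, ?_⟩
  unfold termT
  split_ifs with h
  · rw [norm_zero]; positivity
  · have htn : 0 < ‖t n‖ := norm_pos_iff.mpr (ht0 n)
    have h1 := key h
    have hp : 0 < ‖z - t n‖ := by linarith
    rw [norm_term t r n z (ht0 n) (hne h)]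
    have h2 : ‖t n‖ ≤ ‖z - t n‖ * (1 + (‖z0‖ + δ) / δ) := by
      have h3 : ‖t n‖ ≤ ‖z - t n‖ + ‖z‖ := by
        have := norm_sub_le z (z - t n)
        rw [sub_sub_cancel] at this
        linarith
      have h4 : ‖z0‖ + δ ≤ ‖z - t n‖ * ((‖z0‖ + δ) / δ) := by
        calc ‖z0‖ + δ = δ * ((‖z0‖ + δ) / δ) := by field_simp
          _ ≤ _ := by gcongr
      nlinarith
    have h5 : ‖z - t n‖⁻¹ ≤ (1 + (‖z0‖ + δ) / δ) / ‖t n‖ := by
      rw [le_div_iff₀ htn, inv_mul_le_iff₀ hp]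
      exact h2
    calc ‖r n‖ * ‖z‖ / ‖t n‖ * ‖z - t n‖⁻¹
        ≤ ‖r n‖ * (‖z0‖ + δ) / ‖t n‖ * ((1 + (‖z0‖ + δ) / δ) / ‖t n‖) := by gcongr
      _ = _ := by field_simp

lemma local_sum (t r : ℕ → ℂ) (ht0 : ∀ n, t n ≠ 0) (ht : Tendsto t atTop (cocompact ℂ))
    (hs : Summable fun n => ‖r n‖ / ‖t n‖ ^ 2) (z0 : ℂ) :
    AnalyticAt ℂ (fun z => ∑' n, termT t r z0 n z) z0 ∧
    HasSum (fun n => deriv (termT t r z0 n) z0) (deriv (fun z => ∑' n, termT t r z0 n z) z0) ∧
    ∀ᶠ z in 𝓝 z0, Summable (fun n => ‖termT t r z0 n z‖) ∧ ∀ n, t n ≠ z0 → z ≠ t n := by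
  obtain ⟨δ, hδ, hsep⟩ := sep t ht z0
  have hb := local_bound t r ht0 z0 δ hδ hsep
  have hu := hs.mul_left ((‖z0‖ + δ) * (1 + (‖z0‖ + δ) / δ))
  have hd : ∀ n, DifferentiableOn ℂ (termT t r z0 n) (ball z0 δ) := by
    intro n z hz
    apply DifferentiableAt.differentiableWithinAt
    unfold termT
    split_ifs with h
    · exact differentiableAt_const _
    · exact (hasDerivAt_term t r n z ((hb n z hz).1 h)).differentiableAt
  refine ⟨?_, ?_, ?_⟩
  · exact (Complex.differentiableOn_tsum_of_summable_norm hu hd isOpen_ball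
      (fun n z hz => (hb n z hz).2)).analyticAt (ball_mem_nhds z0 hδ)
  · exact Complex.hasSum_deriv_of_summable_norm hu hd isOpen_ball
      (fun n z hz => (hb n z hz).2) (mem_ball_self hδ)
  · filter_upwards [ball_mem_nhds z0 hδ] with z hz
    exact ⟨Summable.of_nonneg_of_le (fun _ => norm_nonneg _) (fun n => (hb n z hz).2) hu,
      fun n => (hb n z hz).1⟩

lemma analyticAt_dslope (f : ℂ → ℂ) (z : ℂ) (hf : AnalyticAt ℂ f z) :
    AnalyticAt ℂ (dslope f z) z := by
  obtain ⟨p, hp⟩ := hf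
  exact ⟨p.fslope, hp.has_fpower_series_dslope_fslope⟩

open Classical in
noncomputable def res (G : ℂ → ℂ) (t : ℕ → ℂ) (n : ℕ) : ℂ :=
  if G (t n) = 0 then (deriv G (t n))⁻¹ else 0

theorem representation (G : ℂ → ℂ) (hG : Differentiable ℂ G) (hG' : ∀ z, deriv G z ≠ 0)
    (t : ℕ → ℂ) (hinj : Function.Injective t) (ht0 : ∀ n, t n ≠ 0)
    (ht : Tendsto t atTop (cocompact ℂ)) (hZ : ∀ z, G z = 0 → z ∈ range t)
    (hs : Summable fun n => ‖res G t n‖ / ‖t n‖ ^ 2) (C : ℝ) (hC : 0 ≤ C)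
    (hb : ∀ z, G z ≠ 0 → ‖(G z)⁻¹‖ ≤ C ∨
      ∃ s, G s = 0 ∧ ‖z - s‖ ≤ 1 ∧ ‖(G z)⁻¹‖ ≤ 3 * ‖(deriv G s)⁻¹‖ * ‖z - s‖⁻¹)
    (z : ℂ) (hz : z ∉ range t) :
    ∑' n, res G t n / (z - t n) ^ 2 = deriv G z / G z ^ 2 := by
  classical
  set r := res G t with hr
  set f : ℂ → ℂ := fun z => (G z)⁻¹ - ∑' n, term t r n z with hf
  have hT : ∀ z0, z0 ∉ range t → termT t r z0 = term t r := by
    intro z0 h0
    ext n w
    have : t n ≠ z0 := fun h => h0 ⟨n, h⟩
    simp [termT, this]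
  have hGne : ∀ z0, z0 ∉ range t → G z0 ≠ 0 := fun z0 h0 h => h0 (hZ z0 h)
  have hfa : ∀ z0, z0 ∉ range t → AnalyticAt ℂ f z0 := by
    intro z0 h0
    have h1 := (local_sum t r ht0 ht hs z0).1
    rw [hT z0 h0] at h1
    exact ((hG.analyticAt z0).inv (hGne z0 h0)).sub h1
  have hloc : ∀ z0, ∃ g : ℂ → ℂ, AnalyticAt ℂ g z0 ∧ f =ᶠ[𝓝[≠] z0] g := by
    intro z0
    by_cases h0 : z0 ∈ range t
    · obtain ⟨m, rfl⟩ := h0
      obtain ⟨h1, -, h3⟩ := local_sum t r ht0 ht hs (t m)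
      have hsplit : ∀ᶠ w in 𝓝 (t m), ∑' n, term t r n w =
          term t r m w + ∑' n, termT t r (t m) n w := by
        filter_upwards [h3] with w hw
        have e : ∀ n, term t r n w = (if n = m then term t r m w else 0) + termT t r (t m) n w := by
          intro n
          by_cases hn : n = m
          · subst hn; simp [termT]
          · have : t n ≠ t m := fun h => hn (hinj h)
            simp [termT, hn, this]
        rw [tsum_congr e, Summable.tsum_add (hasSum_ite_eq m _).summable hw.1.of_norm,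
          tsum_ite_eq]
      by_cases hGm : G (t m) = 0
      · have hrm : r m = (deriv G (t m))⁻¹ := by simp [hr, res, hGm]
        have ha1 : AnalyticAt ℂ (dslope G (t m)) (t m) := analyticAt_dslope _ _ (hG.analyticAt _)
        have hne : dslope G (t m) (t m) ≠ 0 := by rw [dslope_same]; exact hG' _
        have ha2 : AnalyticAt ℂ (fun w => (dslope G (t m) w)⁻¹) (t m) := ha1.inv hne
        have ha3 := analyticAt_dslope _ _ ha2
        refine ⟨fun w => (dslope (fun w => (dslope G (t m) w)⁻¹) (t m) w - r m * (t m)⁻¹)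
          - ∑' n, termT t r (t m) n w, (ha3.sub analyticAt_const).sub h1, ?_⟩
        have hev : ∀ᶠ w in 𝓝 (t m), dslope G (t m) w ≠ 0 := ha1.continuousAt.eventually_ne hne
        filter_upwards [nhdsWithin_le_nhds hsplit, nhdsWithin_le_nhds hev, self_mem_nhdsWithin]
          with w hw hw2 hw3
        have hw4 : w ≠ t m := hw3
        have hw5 : w - t m ≠ 0 := sub_ne_zero.mpr hw4
        simp only [hf]
        rw [hw, dslope_of_ne _ hw4, slope_def_field, dslope_same, ← hrm]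
        have hGw : G w = (w - t m) * dslope G (t m) w := by
          rw [dslope_of_ne _ hw4, slope_def_field, hGm]; field_simp; ring
        rw [hGw]
        unfold term
        field_simp
        ring
      · have hrm : r m = 0 := by simp [hr, res, hGm]
        refine ⟨fun w => (G w)⁻¹ - ∑' n, termT t r (t m) n w,
          ((hG.analyticAt _).inv hGm).sub h1, ?_⟩
        filter_upwards [nhdsWithin_le_nhds hsplit] with w hw
        simp only [hf]
        rw [hw]
        simp [term, hrm]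
    · exact ⟨f, hfa z0 h0, EventuallyEq.rfl⟩
  obtain ⟨D, hD, hDf⟩ := exists_entire f hloc
  have hDf' : ∀ z0, z0 ∉ range t → D =ᶠ[𝓝 z0] f :=
    fun z0 h0 => hDf z0 f (hfa z0 h0) EventuallyEq.rfl
  have hD0 : deriv D z = 0 := by
    refine liouville D hD t ht0 (fun n => 4 * ‖r n‖) (fun n => by positivity) ?_ C hC ?_ z
    · simpa [mul_div_assoc] using hs.mul_left 4
    · intro w hw
      rw [(hDf' w hw).eq_of_nhds]
      have hsw : Summable (fun n => ‖term t r n w‖) := by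
        have := (local_sum t r ht0 ht hs w).2.2.self_of_nhds.1
        rwa [hT w hw] at this
      have hwn : ∀ n, w ≠ t n := fun n h => hw ⟨n, h.symm⟩
      set b : ℕ → ℝ := fun n => ‖r n‖ * (‖w‖ + 1) / ‖t n‖ * ‖w - t n‖⁻¹ with hbdef
      have hb0 : ∀ n, 0 ≤ b n := fun n => by simp only [hbdef]; positivity
      have h1 : ‖∑' n, term t r n w‖ₑ ≤ ∑' n, ENNReal.ofReal (b n) := by
        rw [← ofReal_norm]
        refine (ENNReal.ofReal_le_ofReal (norm_tsum_le_tsum_norm hsw)).trans ?_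
        rw [ENNReal.ofReal_tsum_of_nonneg (fun _ => norm_nonneg _) hsw]
        refine ENNReal.tsum_le_tsum fun n => ENNReal.ofReal_le_ofReal ?_
        rw [norm_term t r n w (ht0 n) (hwn n)]
        simp only [hbdef]
        gcongr
        linarith
      have h2 : ‖(G w)⁻¹‖ₑ ≤ ENNReal.ofReal C + ∑' n, ENNReal.ofReal (3 * b n) := by
        rw [← ofReal_norm]
        rcases hb w (hGne w hw) with h | ⟨s, hs0, hs1, hs2⟩
        · exact (ENNReal.ofReal_le_ofReal h).trans le_self_add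
        · obtain ⟨m, rfl⟩ := hZ s hs0
          refine le_trans ?_ le_add_self
          refine le_trans ?_ (ENNReal.le_tsum m)
          apply ENNReal.ofReal_le_ofReal
          have hrm : r m = (deriv G (t m))⁻¹ := by simp [hr, res, hs0]
          rw [← hrm] at hs2
          refine hs2.trans ?_
          have htm : 0 < ‖t m‖ := norm_pos_iff.mpr (ht0 m)
          have h3 : 1 ≤ (‖w‖ + 1) / ‖t m‖ := by
            rw [le_div_iff₀ htm]
            have := norm_sub_le w (w - t m)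
            rw [sub_sub_cancel] at this
            linarith
          simp only [hbdef]
          calc 3 * ‖r m‖ * ‖w - t m‖⁻¹ = 3 * (‖r m‖ * 1 * ‖w - t m‖⁻¹) := by ring
            _ ≤ 3 * (‖r m‖ * ((‖w‖ + 1) / ‖t m‖) * ‖w - t m‖⁻¹) := by gcongr
            _ = _ := by ring
      calc ‖f w‖ₑ ≤ ‖(G w)⁻¹‖ₑ + ‖∑' n, term t r n w‖ₑ := enorm_sub_le
        _ ≤ (ENNReal.ofReal C + ∑' n, ENNReal.ofReal (3 * b n)) + ∑' n, ENNReal.ofReal (b n) :=
          add_le_add h2 h1
        _ = _ := by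
          rw [add_assoc, ← ENNReal.tsum_add]
          congr 2
          ext n
          have := hb0 n
          rw [← ENNReal.ofReal_add (by positivity) this]
          congr 1
          simp only [hbdef]
          ring
  rw [(hDf' z hz).deriv_eq] at hD0
  obtain ⟨h1, h2, -⟩ := local_sum t r ht0 ht hs z
  rw [hT z hz] at h1 h2
  have hzn : ∀ n, z ≠ t n := fun n h => hz ⟨n, h.symm⟩
  have h3 : (fun n => deriv (term t r n) z) = fun n => -(r n / (z - t n) ^ 2) := by
    ext n; exact (hasDerivAt_term t r n z (hzn n)).deriv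
  rw [h3] at h2
  have h4 : HasDerivAt f (-deriv G z / G z ^ 2 - deriv (fun z => ∑' n, term t r n z) z) z :=
    ((hG z).hasDerivAt.inv (hGne z hz)).sub h1.differentiableAt.hasDerivAt
  rw [h4.deriv] at hD0
  have h5 := h2.neg.tsum_eq
  simp only [neg_neg] at h5
  rw [h5]
  linear_combination hD0

end Pool.Agent.H603Z.CK
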