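import Pool.Agent.H603Z.CK.Fun

set_option autoImplicit false

open Complex Filter Topology Set Metric
open scoped Real

namespace Pool.Agent.H603Z.CK

noncomputable def sa (n : ℕ) : ℝ := 1 / ((n + 1) * √(n + 1))
noncomputable def sb (n : ℕ) : ℝ := 1 / ((n + 1) * (Real.log (n + 2) * √(Real.log (n + 2))))

lemma log_pos' (n : ℕ) : 0 < Real.log ((n:ℝ) + 2) :=
  Real.log_pos (by have := Nat.cast_nonneg (α := ℝ) n; linarith)

lemma sa_pos (n : ℕ) : 0 < sa n := by unfold sa; positivity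
lemma sb_pos (n : ℕ) : 0 < sb n := by unfold sb; have := log_pos' n; positivity

lemma sa_summable : Summable sa := by
  have h := (summable_nat_add_iff 1).mpr
    (Real.summable_one_div_nat_rpow.mpr (show (1:ℝ) < 3 / 2 by norm_num))
  refine h.congr fun n => ?_
  unfold sa
  have hp : (0:ℝ) < n + 1 := by positivity
  push_cast
  rw [Real.sqrt_eq_rpow, show (3:ℝ) / 2 = 1 + 1 / 2 by norm_num, Real.rpow_add hp, Real.rpow_one]

lemma sb_summable : Summable sb := by
  rw [← summable_condensed_iff_of_nonneg (fun n => (sb_pos n).le)]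
  · set c : ℝ := Real.log 2 / 2 with hc
    have hc0 : 0 < c := by have := Real.log_pos (show (1:ℝ) < 2 by norm_num); positivity
    refine Summable.of_nonneg_of_le (fun k => by have := sb_pos (2 ^ k); positivity) (fun k => ?_)
      (sa_summable.mul_left (1 / (c * √c)))
    have h1 : (k + 1) * c ≤ Real.log (((2 ^ k : ℕ) : ℝ) + 2) := by
      push_cast
      have a1 : Real.log 2 ≤ Real.log ((2:ℝ) ^ k + 2) :=
        Real.log_le_log (by norm_num) (by have : (0:ℝ) < 2 ^ k := by positivity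
                                          linarith)
      have a2 : k * Real.log 2 ≤ Real.log ((2:ℝ) ^ k + 2) := by
        rw [← Real.log_pow]
        exact Real.log_le_log (by positivity) (by linarith)
      rw [hc]; linarith
    have h2 : √(k + 1) * √c ≤ √(Real.log (((2 ^ k : ℕ) : ℝ) + 2)) := by
      rw [← Real.sqrt_mul (by positivity)]
      exact Real.sqrt_le_sqrt h1
    unfold sb sa
    have h3 := log_pos' (2 ^ k)
    rw [mul_one_div, one_div_mul_one_div, div_le_div_iff₀ (by positivity) (by positivity), one_mul]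
    have h4 : (2:ℝ) ^ k ≤ ((2 ^ k : ℕ) : ℝ) + 1 := by push_cast; linarith
    calc (2:ℝ) ^ k * (c * √c * ((k + 1) * √(k + 1)))
        = 2 ^ k * (((k + 1) * c) * (√(k + 1) * √c)) := by ring
      _ ≤ _ := by gcongr
  · intro m n _ hmn
    unfold sb
    have h3 := log_pos' m
    have h3' := log_pos' n
    have h4 : (m:ℝ) ≤ n := by exact_mod_cast hmn
    have h5 : Real.log ((m:ℝ) + 2) ≤ Real.log ((n:ℝ) + 2) :=
      Real.log_le_log (by positivity) (by linarith)
    apply one_div_le_one_div_of_le (by positivity)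
    gcongr

lemma summable_natAbs (f : ℕ → ℝ) (hf : Summable f) : Summable fun m : ℤ => f m.natAbs := by
  apply Summable.of_nat_of_neg <;> simpa using hf

noncomputable def wt (p : ℤ × ℤ × ℕ) : ℝ :=
  sa p.1.natAbs * (sb p.2.1.natAbs * Real.exp (-(p.2.2 : ℝ) / 48))

lemma wt_summable : Summable wt := by
  have h1 : Summable fun j : ℕ => Real.exp (-(j : ℝ) / 48) := by
    have := summable_geometric_of_lt_one (r := Real.exp (-1 / 48)) (Real.exp_pos _).le
      (Real.exp_lt_one_iff.mpr (by norm_num))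
    refine this.congr fun j => ?_
    rw [← Real.exp_nat_mul]; congr 1; ring
  have h2 := (summable_natAbs _ sb_summable).mul_of_nonneg h1 (fun m => (sb_pos _).le)
    (fun j => (Real.exp_pos _).le)
  exact (summable_natAbs _ sa_summable).mul_of_nonneg h2 (fun m => (sa_pos _).le)
    (fun p => mul_nonneg (sb_pos _).le (Real.exp_pos _).le)

noncomputable def bb (m k : ℤ) : ℝ :=
  if 49 ≤ k.natAbs then ((k.natAbs : ℝ) + 1) * ((m.natAbs : ℝ) + 1) / 100 else 1

lemma bb_pos (m k : ℤ) : 0 < bb m k := by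
  unfold bb; split_ifs <;> positivity

noncomputable def idx (z : ℂ) : ℤ × ℤ × ℕ :=
  (⌊z.im⌋, ⌊48 * (exp z).im⌋,
    ⌊48 * ((exp z).re - Real.log (bb ⌊z.im⌋ ⌊48 * (exp z).im⌋))⌋₊)

lemma natAbs_floor_le (y : ℝ) : ((⌊y⌋.natAbs : ℕ) : ℝ) ≤ |y| + 1 := by
  rw [Nat.cast_natAbs, Int.cast_abs]
  have h1 := Int.floor_le y
  have h2 := Int.lt_floor_add_one y
  have := le_abs_self y
  have := neg_abs_le y
  exact abs_le.mpr ⟨by linarith, by linarith⟩

variable {G : ℂ → ℂ}

lemma Good.bb_le (h : Good G) (z : ℂ) (hz : G z = 0) (hre : 0 ≤ z.re) :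
    bb ⌊z.im⌋ ⌊48 * (exp z).im⌋ ≤ Real.exp (exp z).re := by
  have h1 : 0 < (exp z).re := by
    by_contra h1
    push Not at h1
    have := h.estA z hre h1
    rw [hz, norm_zero] at this
    have := abs_nonneg z.im
    linarith
  have h2 := h.estB z hre
  rw [hz, norm_zero, sub_zero] at h2
  unfold bb
  split_ifs with hk
  · have a1 := natAbs_floor_le z.im
    have a2 := natAbs_floor_le (48 * (exp z).im)
    rw [abs_mul, abs_of_pos (show (0:ℝ) < 48 by norm_num)] at a2
    have a3 : (49:ℝ) ≤ ((⌊48 * (exp z).im⌋.natAbs : ℕ) : ℝ) := by exact_mod_cast hk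
    refine le_trans ?_ h2
    have a4 : (((⌊48 * (exp z).im⌋.natAbs : ℕ) : ℝ) + 1) / 50 ≤ |(exp z).im| := by linarith
    have a5 : (((⌊z.im⌋.natAbs : ℕ) : ℝ) + 1) / 2 ≤ 3 + |z.im| / 2 := by linarith
    calc _ = ((((⌊48 * (exp z).im⌋.natAbs : ℕ) : ℝ) + 1) / 50) *
          ((((⌊z.im⌋.natAbs : ℕ) : ℝ) + 1) / 2) := by ring
      _ ≤ _ := by gcongr
  · exact Real.one_le_exp h1.le

lemma Good.idx_inj (h : Good G) (z w : ℂ) (hz : G z = 0) (hre : 0 ≤ z.re) (hw : G w = 0)
    (hre' : 0 ≤ w.re) (he : idx z = idx w) : z = w := by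
  unfold idx at he
  rw [Prod.mk.injEq, Prod.mk.injEq] at he
  obtain ⟨h1, h2, h3⟩ := he
  have b1 := h.bb_le z hz hre
  have b2 := h.bb_le w hw hre'
  rw [← h1, ← h2] at b2 h3
  have hb := bb_pos ⌊z.im⌋ ⌊48 * (exp z).im⌋
  rw [← Real.log_le_iff_le_exp hb] at b1 b2
  have c1 := Int.abs_sub_lt_one_of_floor_eq_floor h1
  have c2 := Int.abs_sub_lt_one_of_floor_eq_floor h2
  have c3 : |(exp w).re - (exp z).re| ≤ 1 / 48 := by
    have d1 := Nat.floor_le (show 0 ≤ 48 * ((exp z).re -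
      Real.log (bb ⌊z.im⌋ ⌊48 * (exp z).im⌋)) by linarith)
    have d2 := Nat.floor_le (show 0 ≤ 48 * ((exp w).re -
      Real.log (bb ⌊z.im⌋ ⌊48 * (exp z).im⌋)) by linarith)
    have d3 := Nat.lt_floor_add_one (48 * ((exp z).re - Real.log (bb ⌊z.im⌋ ⌊48 * (exp z).im⌋)))
    have d4 := Nat.lt_floor_add_one (48 * ((exp w).re - Real.log (bb ⌊z.im⌋ ⌊48 * (exp z).im⌋)))
    rw [h3] at d1 d3
    exact abs_le.mpr ⟨by linarith, by linarith⟩
  have c4 : |(exp w).im - (exp z).im| ≤ 1 / 48 := by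
    rw [abs_lt] at c2
    exact abs_le.mpr ⟨by linarith, by linarith⟩
  have c5 : ‖exp w - exp z‖ ≤ 1 / 24 := by
    have := Complex.norm_le_abs_re_add_abs_im (exp w - exp z)
    rw [Complex.sub_re, Complex.sub_im] at this
    linarith
  have c6 : 1 ≤ ‖exp z‖ := by rw [Complex.norm_exp]; exact Real.one_le_exp hre
  set q : ℂ := (exp w - exp z) / exp z with hq
  have c7 : ‖q‖ ≤ 1 / 24 / ‖exp z‖ := by rw [hq, norm_div]; gcongr
  have c8 : ‖q‖ ≤ 1 / 2 := by
    refine c7.trans ?_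
    rw [div_le_iff₀ (by linarith)]; linarith
  have c9 : w - z = log (1 + q) := by
    have : 1 + q = exp (w - z) := by
      rw [hq, Complex.exp_sub]; field_simp; ring
    rw [abs_lt] at c1
    rw [this, Complex.log_exp] <;> rw [Complex.sub_im] <;> linarith [Real.pi_gt_three]
  have c10 : ‖w - z‖ ≤ rho z := by
    rw [c9]
    refine (Complex.norm_log_one_add_half_le_self c8).trans ?_
    calc 3 / 2 * ‖q‖ ≤ 3 / 2 * (1 / 24 / ‖exp z‖) := by gcongr
      _ = 1 / (8 * (‖exp z‖ + ‖exp z‖)) := by field_simp; ring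
      _ ≤ rho z := by
        unfold rho
        apply one_div_le_one_div_of_le (by positivity)
        linarith
  have c11 := h.local_lower z w z (by rwa [mem_closedBall, dist_eq_norm])
    (mem_closedBall_self (rho_pos z).le)
  rw [hz, hw, sub_self, norm_zero] at c11
  have hE : 0 < ‖exp (exp z)‖ := norm_pos_iff.mpr (exp_ne_zero _)
  have c12 : ‖w - z‖ ≤ 0 := by
    by_contra hc
    push Not at hc
    have : 0 < ‖exp (exp z)‖ / 2 * ‖w - z‖ := by positivity
    linarith
  exact (sub_eq_zero.mp (norm_le_zero_iff.mp c12)).symm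

lemma Good.weight_le (h : Good G) (z : ℂ) (hz : G z = 0) (hre : 0 ≤ z.re) (hn : 1 ≤ ‖z‖) :
    ‖(exp (exp z))⁻¹‖ / ‖z‖ ^ 2 ≤ 2400 * wt (idx z) := by
  have b1 := h.bb_le z hz hre
  have hb := bb_pos ⌊z.im⌋ ⌊48 * (exp z).im⌋
  rw [← Real.log_le_iff_le_exp hb] at b1
  have d1 := Nat.floor_le (show 0 ≤ 48 * ((exp z).re -
      Real.log (bb ⌊z.im⌋ ⌊48 * (exp z).im⌋)) by linarith)
  unfold wt idx
  simp only
  set b := bb ⌊z.im⌋ ⌊48 * (exp z).im⌋ with hbdef
  set j := ⌊48 * ((exp z).re - Real.log b)⌋₊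
  have e1 : ‖(exp (exp z))⁻¹‖ ≤ Real.exp (-(j:ℝ) / 48) / b := by
    rw [norm_inv, Complex.norm_exp, ← Real.exp_neg, le_div_iff₀ hb]
    conv_lhs => rw [← Real.exp_log hb, ← Real.exp_add]
    apply Real.exp_le_exp.mpr
    linarith
  set m := ⌊z.im⌋.natAbs with hm
  set k := ⌊48 * (exp z).im⌋.natAbs with hk
  set N := ‖z‖ with hN
  have hL := log_pos' k
  have a1 : (m:ℝ) + 1 ≤ 3 * N := by
    have := natAbs_floor_le z.im
    have := Complex.abs_im_le_norm z
    linarith
  have a2 : Real.log ((k:ℝ) + 2) ≤ 5 * N := by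
    have c1 := natAbs_floor_le (48 * (exp z).im)
    rw [abs_mul, abs_of_pos (show (0:ℝ) < 48 by norm_num)] at c1
    have c2 := Complex.abs_im_le_norm (exp z)
    have c6 : 1 ≤ ‖exp z‖ := by rw [Complex.norm_exp]; exact Real.one_le_exp hre
    have c3 : (k:ℝ) + 2 ≤ 51 * ‖exp z‖ := by linarith
    have c4 : (51:ℝ) ≤ Real.exp 4 := by
      have := Real.exp_one_gt_d9
      have e : Real.exp 4 = Real.exp 1 ^ 4 := by rw [← Real.exp_nat_mul]; norm_num
      rw [e]
      calc (51:ℝ) ≤ 2.7 ^ 4 := by norm_num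
        _ ≤ _ := by gcongr; linarith
    rw [Real.log_le_iff_le_exp (by positivity)]
    rw [Complex.norm_exp] at c3
    have c5 := Complex.re_le_norm z
    calc (k:ℝ) + 2 ≤ Real.exp 4 * Real.exp z.re := by
          refine c3.trans ?_; gcongr
      _ = Real.exp (4 + z.re) := by rw [Real.exp_add]
      _ ≤ _ := Real.exp_le_exp.mpr (by linarith)
  have key : ((k:ℝ) + 1) * (Real.log (k + 2) * √(Real.log (k + 2))) * ((m + 1) * √(m + 1)) ≤
      2400 * b * N ^ 2 := by
    by_cases hk49 : 49 ≤ k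
    · have hbv : b = ((k:ℝ) + 1) * ((m:ℝ) + 1) / 100 := by
        rw [hbdef]; unfold bb; rw [if_pos hk49]
      have c1 : √(Real.log (k + 2)) * √((m:ℝ) + 1) ≤ 4 * N := by
        rw [← Real.sqrt_mul hL.le, Real.sqrt_le_left (by linarith)]
        calc Real.log (k + 2) * ((m:ℝ) + 1) ≤ (5 * N) * (3 * N) := by gcongr
          _ ≤ _ := by nlinarith
      calc _ = 100 * b * (Real.log (k + 2) * (√(Real.log (k + 2)) * √((m:ℝ) + 1))) := by
            rw [hbv]; ring
        _ ≤ 100 * b * (5 * N * (4 * N)) := by gcongr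
        _ ≤ _ := by nlinarith [mul_pos hb (show 0 < N ^ 2 by positivity)]
    · have hbv : b = 1 := by
        rw [hbdef]; unfold bb; rw [if_neg hk49]
      have c0 : (k:ℝ) ≤ 48 := by exact_mod_cast (show k ≤ 48 by omega)
      have c1 : Real.log ((k:ℝ) + 2) ≤ 4 := by
        rw [Real.log_le_iff_le_exp (by positivity)]
        have := Real.exp_one_gt_d9
        have e : Real.exp 4 = Real.exp 1 ^ 4 := by rw [← Real.exp_nat_mul]; norm_num
        rw [e]
        calc (k:ℝ) + 2 ≤ 2.7 ^ 4 := by linarith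
          _ ≤ _ := by gcongr; linarith
      have c2 : √(Real.log ((k:ℝ) + 2)) ≤ 2 := by
        rw [Real.sqrt_le_left (by norm_num)]; linarith
      have c3 : √((m:ℝ) + 1) ≤ 2 * N := by
        rw [Real.sqrt_le_left (by linarith)]; nlinarith
      calc _ ≤ (49:ℝ) * (4 * 2) * (3 * N * (2 * N)) := by gcongr; linarith
        _ ≤ _ := by rw [hbv]; nlinarith
  unfold sa sb
  have hN0 : 0 < N := by linarith
  calc ‖(exp (exp z))⁻¹‖ / N ^ 2 ≤ Real.exp (-(j:ℝ) / 48) / b / N ^ 2 := by gcongr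
    _ = Real.exp (-(j:ℝ) / 48) * (2400 / (2400 * b * N ^ 2)) := by field_simp
    _ ≤ Real.exp (-(j:ℝ) / 48) * (2400 / (((k:ℝ) + 1) *
        (Real.log (k + 2) * √(Real.log (k + 2))) * ((m + 1) * √(m + 1)))) := by gcongr
    _ = _ := by field_simp

lemma Good.zeros_finite (h : Good G) (K : Set ℂ) (hK : IsCompact K) :
    ({z | G z = 0} ∩ K).Finite := by
  by_contra hinf
  obtain ⟨x, -, hx⟩ := Set.Infinite.exists_accPt_of_subset_isCompact hinf hK inter_subset_right
  rw [accPt_iff_frequently_nhdsNE] at hx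
  have h1 : AnalyticOnNhd ℂ G univ := fun z _ => h.differentiable.analyticAt z
  have := h1.eqOn_zero_of_preconnected_of_frequently_eq_zero isPreconnected_univ (mem_univ x)
    (hx.mono fun y hy => hy.1) (mem_univ 0)
  exact h.ne_zero this

lemma Good.summable (h : Good G) (t : ℕ → ℂ) (hinj : Function.Injective t) :
    Summable fun n => ‖res G t n‖ / ‖t n‖ ^ 2 := by
  classical
  set A : Set ℕ := {n | G (t n) = 0 ∧ 0 ≤ (t n).re ∧ 1 ≤ ‖t n‖} with hA
  have h1 : Function.Injective (fun n : A => idx (t n)) := by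
    intro a b hab
    exact Subtype.ext (hinj (h.idx_inj _ _ a.2.1 a.2.2.1 b.2.1 b.2.2.1 hab))
  have h2 : Summable ((fun n : ℕ => 2400 * wt (idx (t n))) ∘ (Subtype.val : A → ℕ)) :=
    (wt_summable.mul_left 2400).comp_injective h1
  rw [summable_subtype_iff_indicator] at h2
  refine Summable.of_norm_bounded_eventually h2 ?_
  obtain ⟨M, hM⟩ := h.left
  have h3 := (h.zeros_finite _ (isCompact_closedBall 0 (max M 1))).preimage hinj.injOn
  filter_upwards [h3.compl_mem_cofinite] with n hn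
  rw [Real.norm_of_nonneg (by positivity)]
  by_cases hG : G (t n) = 0
  · have h4 : max M 1 < ‖t n‖ := by
      by_contra hc
      exact hn ⟨hG, mem_closedBall_zero_iff.mpr (not_lt.mp hc)⟩
    have h5 : n ∈ A := by
      refine ⟨hG, ?_, (le_max_right M 1).trans h4.le⟩
      by_contra hc
      push Not at hc
      have := hM _ hc.le
      rw [hG, norm_zero] at this
      linarith [le_max_left M 1]
    rw [indicator_of_mem h5]
    unfold res
    rw [if_pos hG, h.deriv_eq]
    exact h.weight_le _ hG h5.2.1 h5.2.2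
  · have h5 : n ∉ A := fun h5 => hG h5.1
    rw [indicator_of_notMem h5]
    simp [res, hG]

lemma Good.exists_enum (h : Good G) : ∃ t : ℕ → ℂ, Function.Injective t ∧ (∀ n, t n ≠ 0) ∧
    Tendsto t atTop (cocompact ℂ) ∧ ∀ z, G z = 0 → z ∈ range t := by
  set T : Set ℂ := {z | G z = 0} ∪ range (fun n : ℕ => ((n:ℂ) + 1)) with hT
  have hfin : ∀ K, IsCompact K → (T ∩ K).Finite := by
    intro K hK
    rw [hT, union_inter_distrib_right]
    refine (h.zeros_finite K hK).union ?_
    obtain ⟨R, hR⟩ := hK.isBounded.exists_norm_le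
    refine ((Set.finite_Iic ⌈R⌉₊).image (fun n : ℕ => ((n:ℂ) + 1))).subset ?_
    rintro z ⟨⟨n, rfl⟩, hz⟩
    refine ⟨n, ?_, rfl⟩
    have h1 := hR _ hz
    have h2 := Complex.re_le_norm ((n:ℂ) + 1)
    simp at h2
    have h3 : (n:ℝ) ≤ ⌈R⌉₊ := by linarith [Nat.le_ceil R]
    exact_mod_cast h3
  have hc : T.Countable := by
    have : T = ⋃ n : ℕ, T ∩ closedBall 0 n := by
      ext z
      simp only [mem_iUnion, mem_inter_iff, mem_closedBall_zero_iff]
      exact ⟨fun hz => ⟨⌈‖z‖⌉₊, hz, Nat.le_ceil _⟩, fun ⟨_, hz, _⟩ => hz⟩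
    rw [this]
    exact countable_iUnion fun n => (hfin _ (isCompact_closedBall _ _)).countable
  have hi : T.Infinite := by
    refine Set.Infinite.mono subset_union_right (infinite_range_of_injective ?_)
    intro a b hab
    simpa using hab
  obtain ⟨d⟩ := Set.countable_infinite_iff_nonempty_denumerable.mp ⟨hc, hi⟩
  set e := (Denumerable.eqv T).symm
  have hinj : Function.Injective (fun n => (e n : ℂ)) :=
    Subtype.val_injective.comp e.injective
  refine ⟨fun n => e n, hinj, ?_, ?_, ?_⟩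
  · intro n (hn : (e n : ℂ) = 0)
    rcases (e n).2 with h1 | ⟨k, h1⟩
    · rw [hn] at h1; exact h.ne_zero h1
    · rw [hn] at h1
      exact Nat.cast_add_one_ne_zero k h1
  · rw [← Nat.cofinite_eq_atTop, tendsto_cofinite_cocompact_iff]
    intro K hK
    refine ((hfin K hK).preimage hinj.injOn).subset fun n hn => ⟨(e n).2, hn⟩
  · intro z hz
    exact ⟨e.symm ⟨z, Or.inl hz⟩, by simp⟩

end Pool.Agent.H603Z.CK
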